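import Mathlib

section

/-! Digit lists, sub-lists of digits and the greedy removal of the lowest units. -/

namespace Pool.Agent.MP_f259ea_nt.FF

open Finset

/-- The value of a list of digits. -/
def val (q : ℕ) : List ℕ → ℕ
  | [] => 0
  | a :: κ => a + q * val q κ

/-- The digit lists below a given one. -/
def subs : List ℕ → Finset (List ℕ)
  | [] => {[]}
  | a :: κ => (range (a + 1) ×ˢ subs κ).image fun x => x.1 :: x.2

/-- The product of the binomial coefficients of the digits. -/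
def bin : List ℕ → List ℕ → ℕ
  | a :: κ, b :: l => a.choose b * bin κ l
  | _, _ => 1

/-- Remove the `r` lowest units. -/
def rem : ℕ → List ℕ → List ℕ
  | _, [] => []
  | r, a :: κ => (a - r) :: rem (r - a) κ

theorem mem_subs_cons {a : ℕ} {κ l : List ℕ} :
    l ∈ subs (a :: κ) ↔ ∃ b l', b ≤ a ∧ l' ∈ subs κ ∧ l = b :: l' := by
  simp only [subs, mem_image, mem_product, mem_range, Prod.exists]
  constructor
  · rintro ⟨b, l', ⟨h1, h2⟩, rfl⟩
    exact ⟨b, l', by omega, h2, rfl⟩
  · rintro ⟨b, l', h1, h2, rfl⟩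
    exact ⟨b, l', ⟨by omega, h2⟩, rfl⟩

theorem sum_subs_cons {M : Type*} [AddCommMonoid M] (a : ℕ) (κ : List ℕ) (g : List ℕ → M) :
    ∑ l ∈ subs (a :: κ), g l = ∑ b ∈ range (a + 1), ∑ l ∈ subs κ, g (b :: l) := by
  rw [subs, sum_image, sum_product]
  rintro ⟨b, l⟩ _ ⟨b', l'⟩ _ h
  simpa using h

theorem sum_le_of_mem : ∀ {κ l : List ℕ}, l ∈ subs κ → l.sum ≤ κ.sum
  | [], l, h => by
    rw [subs, mem_singleton] at h
    simp [h]
  | a :: κ, l, h => by
    obtain ⟨b, l', h1, h2, rfl⟩ := mem_subs_cons.1 h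
    have := sum_le_of_mem h2
    simp only [List.sum_cons]
    omega

theorem subs_trans : ∀ {κ l l' : List ℕ}, l ∈ subs κ → l' ∈ subs l → l' ∈ subs κ
  | [], l, l', h, h' => by
    rw [subs, mem_singleton] at h
    rwa [h] at h'
  | a :: κ, l, l', h, h' => by
    obtain ⟨b, l1, h1, h2, rfl⟩ := mem_subs_cons.1 h
    obtain ⟨c, l2, h3, h4, rfl⟩ := mem_subs_cons.1 h'
    exact mem_subs_cons.2 ⟨c, l2, h3.trans h1, subs_trans h2 h4, rfl⟩

theorem rem_mem : ∀ (r : ℕ) (κ : List ℕ), rem r κ ∈ subs κ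
  | _, [] => by simp [rem, subs]
  | r, a :: κ => mem_subs_cons.2 ⟨_, _, Nat.sub_le _ _, rem_mem _ κ, rfl⟩

theorem rem_sum : ∀ (r : ℕ) (κ : List ℕ), (rem r κ).sum = κ.sum - r
  | _, [] => by simp [rem]
  | r, a :: κ => by
    simp only [rem, List.sum_cons, rem_sum _ κ]
    omega

theorem rem_zero : ∀ κ : List ℕ, rem 0 κ = κ
  | [] => rfl
  | a :: κ => by simp [rem, rem_zero κ]

theorem rem_rem : ∀ (r s : ℕ) (κ : List ℕ), rem s (rem r κ) = rem (r + s) κ
  | _, _, [] => rfl
  | r, s, a :: κ => by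
    simp only [rem, rem_rem _ _ κ]
    rw [show a - r - s = a - (r + s) by omega, show r - a + (s - (a - r)) = r + s - a by omega]

theorem greedy {q : ℕ} (hq : 2 ≤ q) : ∀ {κ l : List ℕ} {r : ℕ}, l ∈ subs κ → l.sum + r ≤ κ.sum →
    val q l + κ.sum ≤ val q (rem r κ) + l.sum + r ∧ (val q (rem r κ) ≤ val q l → l = rem r κ)
  | [], l, r, h, _ => by
    rw [subs, mem_singleton] at h
    simp [h, rem, val]
  | a :: κ, l, r, h, hs => by
    obtain ⟨b, l', h1, h2, rfl⟩ := mem_subs_cons.1 h
    have h3 := sum_le_of_mem h2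
    simp only [List.sum_cons] at hs
    obtain ⟨h4, h5⟩ := greedy hq (r := r - a) h2 (by omega)
    obtain ⟨t, rfl⟩ : ∃ t, q = t + 2 := ⟨q - 2, by omega⟩
    have h6 : val (t + 2) l' ≤ val (t + 2) (rem (r - a) κ) := by omega
    have h7 := Nat.mul_le_mul_left t h6
    simp only [rem, val, List.sum_cons, add_mul]
    refine ⟨by omega, fun h8 => ?_⟩
    have h9 := h5 (by omega)
    have h10 := rem_sum (r - a) κ
    rw [← h9] at h10 h8 h4 ⊢
    congr 1
    omega

theorem val_le_rem {q : ℕ} (hq : 2 ≤ q) {κ l : List ℕ} {r : ℕ} (h : l ∈ subs κ)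
    (hs : l.sum + r ≤ κ.sum) : val q l ≤ val q (rem r κ) := by
  have := (greedy hq h hs).1
  omega

theorem val_lt_rem {q : ℕ} (hq : 2 ≤ q) {κ l : List ℕ} {r : ℕ} (h : l ∈ subs κ)
    (hs : l.sum + r ≤ κ.sum) (hne : l ≠ rem r κ) : val q l < val q (rem r κ) :=
  lt_of_not_ge fun h1 => hne ((greedy hq h hs).2 h1)

theorem val_rem_lt {q : ℕ} (hq : 2 ≤ q) (κ : List ℕ) {r s : ℕ} (h : r < s) (hs : s ≤ κ.sum) :
    val q (rem s κ) < val q (rem r κ) := by
  have h1 := rem_sum s κ
  have := (greedy hq (r := r) (rem_mem s κ) (by omega)).1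
  omega

theorem val_rem_le {q : ℕ} (hq : 2 ≤ q) (κ : List ℕ) (s : ℕ) : val q (rem s κ) ≤ val q κ := by
  have h1 := val_le_rem hq (r := 0) (rem_mem s κ) (by simpa using sum_le_of_mem (rem_mem s κ))
  rwa [rem_zero] at h1

theorem val_modEq {q : ℕ} (hq : 1 ≤ q) : ∀ κ : List ℕ, val q κ ≡ κ.sum [MOD (q - 1)]
  | [] => rfl
  | a :: κ => by
    have h1 : q ≡ 1 [MOD (q - 1)] := ((Nat.modEq_iff_dvd' hq).2 dvd_rfl).symm
    have := (h1.mul (val_modEq hq κ)).add_left a
    simpa [val] using this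

theorem val_eq_zero (q : ℕ) : ∀ κ : List ℕ, κ.sum = 0 → val q κ = 0
  | [], _ => rfl
  | a :: κ, h => by
    simp only [List.sum_cons] at h
    rw [val, val_eq_zero q κ (by omega)]
    omega

theorem val_append (q : ℕ) : ∀ u v : List ℕ, val q (u ++ v) = val q u + q ^ u.length * val q v
  | [], v => by simp [val]
  | a :: u, v => by
    simp only [List.cons_append, val, val_append q u v, List.length_cons]
    ring

theorem val_compl {q : ℕ} (hq : 1 ≤ q) : ∀ u : List ℕ, (∀ a ∈ u, a ≤ q - 1) →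
    val q u + val q (u.map fun a => q - 1 - a) + 1 = q ^ u.length
  | [], _ => by simp [val]
  | a :: u, h => by
    have h1 := val_compl hq u fun b hb => h b (List.mem_cons_of_mem _ hb)
    have h2 := h a List.mem_cons_self
    simp only [List.map_cons, val, List.length_cons, pow_succ', ← h1, mul_add]
    omega

theorem sum_compl {q : ℕ} : ∀ u : List ℕ, (∀ a ∈ u, a ≤ q - 1) →
    u.sum + (u.map fun a => q - 1 - a).sum = u.length * (q - 1)
  | [], _ => by simp
  | a :: u, h => by
    have h1 := sum_compl u fun b hb => h b (List.mem_cons_of_mem _ hb)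
    have h2 := h a List.mem_cons_self
    simp only [List.map_cons, List.sum_cons, List.length_cons, add_mul]
    omega

theorem val_replicate {q : ℕ} (hq : 1 ≤ q) (n : ℕ) :
    val q (List.replicate n (q - 1)) + 1 = q ^ n := by
  induction n with
  | zero => simp [val]
  | succ n ih =>
    rw [List.replicate_succ, val, pow_succ, ← ih, add_mul, mul_comm _ q]
    omega

section Good
variable (F : Type) [Field F]

/-- All binomial coefficients with this top entry are non-zero in `F`. -/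
def Free (a : ℕ) : Prop := ∀ y ≤ a, ((a.choose y : ℕ) : F) ≠ 0

/-- Digit lists for which the greedy terms survive. -/
def Good (q : ℕ) : ℕ → List ℕ → Prop
  | _, [] => True
  | s, a :: κ => a ≤ q - 1 ∧ (Free F a ∨ (q - 1) ∣ s) ∧ Good q (s + a) κ

variable {F}

theorem Good.bin_ne {q : ℕ} (l : ℕ) : ∀ {s : ℕ} {κ : List ℕ}, Good F q s κ →
    ((bin (rem (l * (q - 1) - s) κ) (rem ((l + 1) * (q - 1) - s) κ) : ℕ) : F) ≠ 0
  | _, [], _ => by simp [rem, bin]
  | s, a :: κ, ⟨h1, h2, h3⟩ => by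
    have ih := Good.bin_ne l h3
    simp only [rem, bin, Nat.cast_mul, Nat.sub_sub]
    refine mul_ne_zero ?_ ih
    rw [add_mul, one_mul]
    by_cases h4 : l * (q - 1) ≤ s
    · rw [Nat.sub_eq_zero_of_le h4, Nat.sub_zero]
      rcases h2 with h2 | ⟨t, rfl⟩
      · exact h2 _ (Nat.sub_le _ _)
      · rcases Nat.lt_or_ge l t with h5 | h5
        · have := Nat.mul_le_mul_left (q - 1) (Nat.succ_le_of_lt h5)
          rw [Nat.mul_succ, mul_comm _ l] at this
          rw [Nat.sub_eq_zero_of_le this]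
          simp
        · have := Nat.mul_le_mul_left (q - 1) h5
          rw [mul_comm _ l] at this
          rw [Nat.sub_eq_zero_of_le (n := a) (by omega)]
          simp
    · rw [Nat.sub_eq_zero_of_le (n := a) (m := l * (q - 1) + (q - 1) - s) (by omega)]
      simp

theorem good_of_free {q : ℕ} : ∀ (s : ℕ) (κ : List ℕ), (∀ a ∈ κ, a ≤ q - 1 ∧ Free F a) →
    Good F q s κ
  | _, [], _ => trivial
  | _, a :: κ, h => ⟨(h a List.mem_cons_self).1, Or.inl (h a List.mem_cons_self).2,
      good_of_free _ κ fun b hb => h b (List.mem_cons_of_mem _ hb)⟩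

theorem good_replicate {q : ℕ} (n : ℕ) {κ : List ℕ} (h : ∀ s, (q - 1) ∣ s → Good F q s κ) :
    ∀ s, (q - 1) ∣ s → Good F q s (List.replicate n (q - 1) ++ κ) := by
  induction n with
  | zero => simpa using h
  | succ n ih =>
    intro s hs
    exact ⟨le_rfl, Or.inr hs, ih _ (dvd_add hs dvd_rfl)⟩

theorem free_zero : Free F 0 := fun y hy => by
  rw [Nat.le_zero.1 hy]
  simp

end Good

end Pool.Agent.MP_f259ea_nt.FF

end

section

/-! Power sums of monic polynomials: Carlitz recursion and the greedy degree formula. -/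

namespace Pool.Agent.MP_f259ea_nt.FF

open Finset Polynomial

variable (F : Type) [Field F] [Fintype F]

theorem low_finite (n : ℕ) : {f : F[X] | f.degree < n}.Finite := by
  have : Finite (degreeLT F n) := Finite.of_equiv _ (degreeLTEquiv F n).symm.toEquiv
  exact (Set.toFinite (degreeLT F n : Set F[X])).subset fun f hf => mem_degreeLT.2 hf

/-- The polynomials of degree `< n`. -/
noncomputable def low (n : ℕ) : Finset F[X] := (low_finite F n).toFinset

open Classical in
/-- The monic polynomials of degree `n`. -/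
noncomputable def mon (n : ℕ) : Finset F[X] :=
  (low F (n + 1)).filter fun f => f.Monic ∧ f.natDegree = n

/-- The power sums. -/
noncomputable def S (n k : ℕ) : F[X] := ∑ a ∈ mon F n, a ^ k

variable {F}

theorem mem_low {n : ℕ} {f : F[X]} : f ∈ low F n ↔ f.degree < n := by simp [low]

theorem mem_mon {n : ℕ} {f : F[X]} : f ∈ mon F n ↔ f.Monic ∧ f.natDegree = n := by
  simp only [mon, mem_filter, mem_low, and_iff_right_iff_imp]
  rintro ⟨h1, h2⟩
  rw [degree_eq_natDegree h1.ne_zero, h2]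
  exact_mod_cast Nat.lt_succ_self n

theorem mon_zero : mon F 0 = {1} := by
  ext f
  rw [mem_mon, mem_singleton]
  exact ⟨fun h => h.1.natDegree_eq_zero.1 h.2, fun h => by simp [h]⟩

theorem sum_mon_succ {M : Type*} [AddCommMonoid M] (n : ℕ) (g : F[X] → M) :
    ∑ a ∈ mon F (n + 1), g a = ∑ b ∈ mon F n, ∑ c : F, g (X * b + C c) := by
  rw [← sum_product']
  symm
  refine sum_nbij' (fun x => X * x.1 + C x.2) (fun a => (a.divX, a.coeff 0)) ?_ ?_ ?_ ?_ ?_
  · rintro ⟨b, c⟩ h
    obtain ⟨h1, h2⟩ := mem_mon.1 (mem_product.1 h).1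
    have h3 : (X * b).natDegree = n + 1 := by rw [natDegree_X_mul h1.ne_zero, h2]
    refine mem_mon.2 ⟨(monic_X.mul h1).add_of_left ?_, by rw [natDegree_add_C, h3]⟩
    refine degree_C_le.trans_lt ?_
    rw [← natDegree_pos_iff_degree_pos, h3]
    omega
  · intro a h
    obtain ⟨h1, h2⟩ := mem_mon.1 h
    have h3 : a.divX.natDegree = n := by rw [natDegree_divX_eq_natDegree_tsub_one, h2]; rfl
    refine mem_product.2 ⟨mem_mon.2 ⟨?_, h3⟩, mem_univ _⟩
    rw [Monic, leadingCoeff, h3, coeff_divX, ← h2]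
    exact h1
  · rintro ⟨b, c⟩ _
    refine Prod.ext ?_ (by simp)
    ext i
    simp [coeff_divX]
  · intro a _
    exact X_mul_divX_add a
  · intro _ _
    rfl

theorem expand_val {R : Type} [CommRing R] [Algebra F R] (c : F) : ∀ (κ : List ℕ) (y : R),
    (y + algebraMap F R c) ^ val (Fintype.card F) κ = ∑ l ∈ subs κ,
      algebraMap F R ((bin κ l : F) * c ^ (κ.sum - l.sum)) * y ^ val (Fintype.card F) l
  | [], y => by simp [val, subs, bin]
  | a :: κ, y => by
    have h1 : (y + algebraMap F R c) ^ Fintype.card F = y ^ Fintype.card F + algebraMap F R c := by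
      have := map_add (FiniteField.frobeniusAlgHom F R) y (algebraMap F R c)
      rwa [AlgHom.commutes] at this
    rw [val, pow_add, pow_mul, h1, expand_val c κ, add_pow, sum_subs_cons, sum_mul_sum]
    refine sum_congr rfl fun b hb => sum_congr rfl fun l hl => ?_
    have h2 := sum_le_of_mem hl
    have h3 := mem_range.1 hb
    simp only [bin, val, List.sum_cons]
    rw [show a + κ.sum - (b + l.sum) = (a - b) + (κ.sum - l.sum) by omega]
    simp only [Nat.cast_mul, map_mul, map_pow, map_natCast, pow_add, pow_mul]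
    ring

theorem S_zero (k : ℕ) : S F 0 k = 1 := by simp [S, mon_zero]

theorem S_succ (n : ℕ) (κ : List ℕ) : S F (n + 1) (val (Fintype.card F) κ) = ∑ l ∈ subs κ,
    C ((bin κ l : F) * ∑ c : F, c ^ (κ.sum - l.sum)) *
      (X ^ val (Fintype.card F) l * S F n (val (Fintype.card F) l)) := by
  rw [S, sum_mon_succ]
  simp only [← algebraMap_eq, expand_val]
  rw [sum_congr rfl fun b _ => sum_comm, sum_comm]
  refine sum_congr rfl fun l _ => ?_
  rw [sum_comm, S, mul_sum, map_sum, sum_mul]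
  refine sum_congr rfl fun c _ => ?_
  rw [mul_sum, mul_sum]
  refine sum_congr rfl fun b _ => ?_
  rw [mul_pow]

theorem two_le_card : 2 ≤ Fintype.card F := Fintype.one_lt_card

theorem psum_ne {e : ℕ} (h : ∑ c : F, c ^ e ≠ 0) : Fintype.card F - 1 ≤ e :=
  le_of_not_gt fun h1 => h (FiniteField.sum_pow_lt_card_sub_one F e h1)

theorem psum_top : ∑ c : F, c ^ (Fintype.card F - 1) ≠ 0 := by
  classical
  have h0 : Fintype.card F - 1 ≠ 0 := by have := two_le_card (F := F); omega
  have h1 : ∀ c : F, c ^ (Fintype.card F - 1) = 1 - if c = 0 then 1 else 0 := fun c => by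
    split_ifs with h
    · simp [h, h0]
    · simp [FiniteField.pow_card_sub_one_eq_one c h]
  simp [h1]

theorem S_eq_zero : ∀ (n : ℕ) (κ : List ℕ), κ.sum < n * (Fintype.card F - 1) →
    S F n (val (Fintype.card F) κ) = 0
  | 0, _, h => by omega
  | n + 1, κ, h => by
    rw [S_succ]
    refine sum_eq_zero fun l hl => ?_
    by_cases h1 : ∑ c : F, c ^ (κ.sum - l.sum) = 0
    · simp [h1]
    · have h2 := psum_ne h1
      have h3 := sum_le_of_mem hl
      rw [add_mul] at h
      rw [S_eq_zero n l (by omega)]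
      simp

/-- The greedy degree. -/
def U (q n : ℕ) (κ : List ℕ) : ℕ := ∑ i ∈ range n, val q (rem ((i + 1) * (q - 1)) κ)

theorem U_succ (q n : ℕ) (κ : List ℕ) :
    U q (n + 1) κ = val q (rem (q - 1) κ) + U q n (rem (q - 1) κ) := by
  rw [U, sum_range_succ', add_comm, U]
  simp only [zero_add, one_mul, rem_rem]
  congr 1
  refine sum_congr rfl fun i _ => ?_
  congr 2
  ring

theorem U_mono {q : ℕ} (hq : 2 ≤ q) {n : ℕ} {κ l : List ℕ} (hl : l ∈ subs κ)
    (h1 : l.sum + (q - 1) ≤ κ.sum) (h2 : n * (q - 1) ≤ l.sum) :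
    U q n l ≤ U q n (rem (q - 1) κ) := by
  refine sum_le_sum fun i hi => ?_
  rw [rem_rem]
  have h3 := Nat.mul_le_mul_right (q - 1) (Nat.succ_le_of_lt (mem_range.1 hi))
  refine val_le_rem hq (subs_trans hl (rem_mem _ _)) ?_
  rw [rem_sum, Nat.succ_eq_add_one] at *
  omega

theorem S_natDegree_le : ∀ (n : ℕ) (κ : List ℕ),
    (S F n (val (Fintype.card F) κ)).natDegree ≤ U (Fintype.card F) n κ
  | 0, _ => by simp [S_zero]
  | n + 1, κ => by
    rw [S_succ, U_succ]
    refine natDegree_sum_le_of_forall_le _ _ fun l hl => ?_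
    by_cases h1 : ∑ c : F, c ^ (κ.sum - l.sum) = 0
    · simp [h1]
    have h2 := psum_ne h1
    have h3 := sum_le_of_mem hl
    rcases Nat.lt_or_ge l.sum (n * (Fintype.card F - 1)) with h4 | h4
    · simp [S_eq_zero n l h4]
    refine (natDegree_C_mul_le _ _).trans (natDegree_mul_le.trans (add_le_add ?_ ?_))
    · rw [natDegree_X_pow]
      exact val_le_rem two_le_card hl (by omega)
    · exact (S_natDegree_le n l).trans (U_mono two_le_card hl (by omega) h4)

theorem S_coeff_ne : ∀ (n : ℕ) (κ : List ℕ), n * (Fintype.card F - 1) ≤ κ.sum →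
    (∀ i, ((bin (rem (i * (Fintype.card F - 1)) κ)
      (rem ((i + 1) * (Fintype.card F - 1)) κ) : ℕ) : F) ≠ 0) →
    (S F n (val (Fintype.card F) κ)).coeff (U (Fintype.card F) n κ) ≠ 0
  | 0, _, _, _ => by simp [S_zero, U]
  | n + 1, κ, h, hb => by
    rw [add_mul, one_mul] at h
    rw [S_succ, U_succ, finsetSum_coeff, sum_eq_single_of_mem _ (rem_mem (Fintype.card F - 1) κ)]
    · rw [coeff_C_mul, add_comm, coeff_X_pow_mul, rem_sum,
        show κ.sum - (κ.sum - (Fintype.card F - 1)) = Fintype.card F - 1 by omega]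
      refine mul_ne_zero (mul_ne_zero ?_ psum_top) (S_coeff_ne n _ (by rw [rem_sum]; omega) ?_)
      · simpa [rem_zero] using hb 0
      · intro i
        have := hb (i + 1)
        rwa [rem_rem, rem_rem, add_comm _ (i * _), add_comm _ ((i + 1) * _), ← Nat.succ_mul,
          ← Nat.succ_mul]
    · intro l hl hne
      by_cases h1 : ∑ c : F, c ^ (κ.sum - l.sum) = 0
      · simp [h1]
      have h2 := psum_ne h1
      have h3 := sum_le_of_mem hl
      rcases Nat.lt_or_ge l.sum (n * (Fintype.card F - 1)) with h4 | h4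
      · simp [S_eq_zero n l h4]
      refine coeff_eq_zero_of_natDegree_lt ((natDegree_C_mul_le _ _).trans_lt
        (natDegree_mul_le.trans_lt (add_lt_add_of_lt_of_le ?_ ?_)))
      · rw [natDegree_X_pow]
        exact val_lt_rem two_le_card hl (by omega) hne
      · exact (S_natDegree_le n l).trans (U_mono two_le_card hl (by omega) h4)

theorem S_good {κ : List ℕ} (hκ : Good F (Fintype.card F) 0 κ) {n : ℕ}
    (hn : n * (Fintype.card F - 1) ≤ κ.sum) : S F n (val (Fintype.card F) κ) ≠ 0 ∧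
    (S F n (val (Fintype.card F) κ)).natDegree = U (Fintype.card F) n κ := by
  have h := S_coeff_ne n κ hn fun i => hκ.bin_ne i
  exact ⟨fun h0 => h (by rw [h0, coeff_zero]),
    le_antisymm (S_natDegree_le n κ) (le_natDegree_of_ne_zero h)⟩

theorem U_le {q : ℕ} (hq : 2 ≤ q) (n : ℕ) (κ : List ℕ) : U q n κ ≤ n * val q κ := by
  simpa [U] using sum_le_card_nsmul (range n) _ (val q κ) fun i _ => val_rem_le hq κ _

end Pool.Agent.MP_f259ea_nt.FF

end

section

/-! Newton polygons with segments of length one; the discriminant of the special polynomial. -/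

namespace Pool.Agent.MP_f259ea_nt.FF

open Finset Polynomial

variable {F : Type} [Field F]

theorem exists_val {E : Type} [Field E] [Algebra F E] {t : E} (ht : Transcendental F t) :
    ∃ V : ValuationSubring E, 1 < V.valuation t ∧
      ∀ a : F[X], a ≠ 0 → V.valuation (aeval t a) = V.valuation t ^ a.natDegree := by
  have h0 : t ≠ 0 := fun h => ht (h ▸ isAlgebraic_zero)
  have h1 : Transcendental F t⁻¹ := fun h => ht (by simpa using h.inv)
  let A : Subring E := (aeval t⁻¹ : F[X] →ₐ[F] E).range.toSubring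
  let x : A := ⟨t⁻¹, X, aeval_X _⟩
  have h2 : Ideal.span {x} ≠ ⊤ := by
    rw [Ne, Ideal.eq_top_iff_one, Ideal.mem_span_singleton']
    rintro ⟨⟨_, g, rfl⟩, hg⟩
    have h3 : aeval t⁻¹ (g * X) = aeval t⁻¹ (1 : F[X]) := by
      rw [map_mul, aeval_X, map_one]
      exact congrArg Subtype.val hg
    have h4 := congrArg (coeff · 0) ((transcendental_iff_injective.1 h1) h3)
    simp at h4
  obtain ⟨V, hV, hI⟩ := Ideal.image_subset_nonunits_valuationSubring _ h2
  have h3 : V.valuation t⁻¹ < 1 := V.mem_nonunits_iff.1 (hI ⟨x, Ideal.subset_span rfl, rfl⟩)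
  have h4 : 1 < V.valuation t := by
    rw [map_inv₀] at h3
    exact (inv_lt_one₀ (zero_lt_iff.2 ((_root_.map_ne_zero _).2 h0))).1 h3
  have h5 : ∀ c : F, V.valuation (algebraMap F E c) ≤ 1 := fun c =>
    (V.valuation_le_one_iff _).2 (hV ⟨C c, aeval_C _ _⟩)
  have : V.valuation.IsTrivialOn F := ⟨fun c hc => by
    refine le_antisymm (h5 c) ?_
    have h6 := h5 c⁻¹
    rw [map_inv₀, map_inv₀] at h6
    exact (inv_le_one₀ (zero_lt_iff.2 ((_root_.map_ne_zero _).2 ((_root_.map_ne_zero _).2 hc)))).1 h6⟩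
  exact ⟨V, h4, fun a ha =>
    valuation_aeval_eq_valuation_X_pow_natDegree_of_one_lt_valuation_X t h4 ha⟩

theorem newton {E Γ : Type} [Field E] [LinearOrderedCommGroupWithZero Γ] (v : Valuation E Γ)
    {γ : Γ} (hγ : 1 < γ) (f : ℕ) (a : ℕ → E) (D r : ℕ → ℕ) (ha : ∀ n ≤ f, v (a n) = γ ^ D n)
    (hD : ∀ n < f, D (n + 1) = D n + r n) (hr : ∀ n, n + 1 < f → r (n + 1) < r n) {z : E}
    (h1 : ∑ n ∈ range (f + 1), a n * z ^ n = 0)
    (h2 : ∑ n ∈ range (f + 1), n * (a n * z ^ n) = 0) : False := by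
  have hγ0 : 0 < γ := zero_lt_one.trans hγ
  by_cases hz : z = 0
  · rw [hz, sum_range_succ'] at h1
    have h3 := ha 0 f.zero_le
    have h4 : a 0 = 0 := by simpa using h1
    rw [h4, map_zero] at h3
    exact (pow_pos hγ0 _).ne h3
  have hx : 0 < v z := zero_lt_iff.2 ((_root_.map_ne_zero _).2 hz)
  set w : ℕ → Γ := fun n => v (a n * z ^ n) with hw
  have hw1 : ∀ n ≤ f, w n = γ ^ D n * v z ^ n := fun n hn => by simp [hw, ha n hn]
  have hw0 : ∀ n ≤ f, 0 < w n := fun n hn => by
    rw [hw1 n hn]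
    exact mul_pos (pow_pos hγ0 _) (pow_pos hx _)
  have hw2 : ∀ n < f, w (n + 1) = w n * (γ ^ r n * v z) := fun n hn => by
    rw [hw1 _ hn, hw1 _ hn.le, hD n hn, pow_add, pow_succ]
    ac_rfl
  have hanti : ∀ m n, n < m → m < f → r m < r n := by
    intro m n h
    induction h with
    | refl => exact hr n
    | step h ih => exact fun h3 => (hr _ h3).trans (ih (by omega))
  obtain ⟨j0, hj0, hmax⟩ := exists_max_image (range (f + 1)) w nonempty_range_add_one
  classical
  let T := (range (f + 1)).filter fun n => w n = w j0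
  have hT : T.Nonempty := ⟨j0, mem_filter.2 ⟨hj0, rfl⟩⟩
  obtain ⟨hj, hj1⟩ := mem_filter.1 (T.max'_mem hT)
  have hup : ∀ n ∈ range (f + 1), T.max' hT < n → w n < w j0 := fun n hn h =>
    lt_of_le_of_ne (hmax n hn) fun h3 => (T.le_max' n (mem_filter.2 ⟨hn, h3⟩)).not_gt h
  generalize T.max' hT = j at hj hj1 hup
  have hjf : j ≤ f := Nat.lt_succ_iff.1 (mem_range.1 hj)
  have hlow : ∀ n, n + 1 < j → w n < w j0 := by
    intro n hn
    obtain ⟨i, rfl⟩ : ∃ i, j = i + 1 := ⟨j - 1, by omega⟩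
    have h3 : 1 ≤ γ ^ r i * v z := by
      have h4 := hmax i (mem_range.2 (by omega))
      rw [← hj1, hw2 i (by omega)] at h4
      exact (le_mul_iff_one_le_right (hw0 i (by omega))).1 h4
    have h4 : 1 < γ ^ r n * v z := h3.trans_lt
      (mul_lt_mul_of_pos_right (pow_lt_pow_right₀ hγ (hanti i n (by omega) (by omega))) hx)
    refine lt_of_lt_of_le ?_ (hmax (n + 1) (mem_range.2 (by omega)))
    rw [hw2 n (by omega)]
    exact lt_mul_of_one_lt_right (hw0 n (by omega)) h4
  have h3 : ∑ n ∈ range (f + 1), (((n : ℤ) - j + 1 : ℤ) : E) * (a n * z ^ n) = 0 := by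
    have : ∀ n : ℕ, (((n : ℤ) - j + 1 : ℤ) : E) * (a n * z ^ n) =
        n * (a n * z ^ n) + (1 - j) * (a n * z ^ n) := fun n => by push_cast; ring
    simp only [this, sum_add_distrib, ← mul_sum, h1, h2, mul_zero, add_zero]
  have h4 : v ((((j : ℤ) - j + 1 : ℤ) : E) * (a j * z ^ j)) = w j0 := by
    rw [sub_self, zero_add, Int.cast_one, one_mul]
    exact hj1
  have h5 := v.map_sum_eq_of_lt (f := fun n : ℕ => (((n : ℤ) - j + 1 : ℤ) : E) * (a n * z ^ n))
    hj fun n hn => by
      obtain ⟨h6, h7⟩ := mem_sdiff.1 hn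
      rw [mem_singleton] at h7
      rw [h4]
      by_cases h8 : n + 1 = j
      · rw [show (n : ℤ) - j + 1 = 0 by omega]
        simpa using hw0 j0 (Nat.lt_succ_iff.1 (mem_range.1 hj0))
      have h9 : w n < w j0 := by
        rcases Nat.lt_or_ge j n with h | h
        · exact hup n h6 h
        · exact hlow n (by omega)
      refine lt_of_le_of_lt ?_ h9
      rw [map_mul]
      exact mul_le_of_le_one_left' (intCast_mem v.integer _)
  rw [h3, map_zero, h4] at h5
  exact (hw0 j0 (Nat.lt_succ_iff.1 (mem_range.1 hj0))).ne h5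

theorem natDegree_det_le {ι : Type} [Fintype ι] [DecidableEq ι] (M : Matrix ι ι F[X]) (B : ℕ)
    (h : ∀ i j, (M i j).natDegree ≤ B) : M.det.natDegree ≤ Fintype.card ι * B := by
  rw [Matrix.det_apply]
  refine natDegree_sum_le_of_forall_le _ _ fun σ _ => ?_
  refine (natDegree_smul_le _ _).trans ((natDegree_prod_le _ _).trans ?_)
  simpa using sum_le_card_nsmul univ _ B fun i _ => h (σ i) i

theorem exists_disc (P : F[X][X]) (B : ℕ) (hB : ∀ n, (P.coeff n).natDegree ≤ B) (hP : P ≠ 0)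
    {E : Type} [Field E] (φ : F[X] →+* E) (hφ : Function.Injective φ)
    (hs : (P.map φ).Separable) : ∃ Δ : F[X], Δ ≠ 0 ∧ Δ.natDegree ≤ (2 * P.natDegree + 1) * B ∧
      ∀ {K : Type} [Field K] (ρ : F[X] →+* K), ρ Δ ≠ 0 →
        (P.map ρ).Separable ∧ (P.map ρ).natDegree = P.natDegree := by
  have h1 : resultant P (derivative P) ≠ 0 := by
    intro h
    have h2 : resultant (P.map φ) ((derivative P).map φ) = 0 := by
      rw [natDegree_map_eq_of_injective hφ, natDegree_map_eq_of_injective hφ, resultant_map_map, h,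
        map_zero]
    rw [← derivative_map] at h2
    exact (resultant_eq_zero_iff.1 h2).2 hs
  refine ⟨resultant P (derivative P) * P.leadingCoeff, mul_ne_zero h1 (leadingCoeff_ne_zero.2 hP),
    ?_, fun ρ hρ => ?_⟩
  · refine natDegree_mul_le.trans ?_
    rw [add_mul, one_mul]
    refine add_le_add ((natDegree_det_le _ B fun i j => ?_).trans ?_) (hB _)
    · unfold sylvester
      rw [Matrix.of_apply]
      refine Fin.addCases (fun j => ?_) (fun j => ?_) j
      · rw [Fin.addCases_left]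
        split_ifs
        · rw [coeff_derivative]
          refine natDegree_mul_le.trans ?_
          rw [← Nat.cast_succ, natDegree_natCast]
          exact hB _
        · simp
      · rw [Fin.addCases_right]
        split_ifs
        · exact hB _
        · simp
    · have := natDegree_derivative_le P
      rw [Fintype.card_fin]
      exact Nat.mul_le_mul_right _ (by omega)
  · rw [map_mul] at hρ
    have h2 := natDegree_map_of_leadingCoeff_ne_zero ρ (right_ne_zero_of_mul hρ)
    refine ⟨?_, h2⟩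
    by_cases h0 : P.natDegree = 0
    · rw [eq_C_of_natDegree_eq_zero h0, map_C, separable_C, isUnit_iff_ne_zero, ← h0]
      exact right_ne_zero_of_mul hρ
    obtain ⟨p, q, -, -, h3⟩ := exists_mul_add_mul_eq_C_resultant P (derivative P) le_rfl le_rfl
      (Or.inl h0)
    have h4 := congrArg (Polynomial.map ρ) h3
    rw [Polynomial.map_add, Polynomial.map_mul, Polynomial.map_mul, map_C, ← derivative_map] at h4
    refine ⟨C (ρ (resultant P (derivative P)))⁻¹ * p.map ρ,
      C (ρ (resultant P (derivative P)))⁻¹ * q.map ρ, ?_⟩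
    rw [mul_assoc, mul_assoc, ← mul_add, mul_comm (p.map ρ), mul_comm (q.map ρ), h4, ← C_mul,
      inv_mul_cancel₀ (left_ne_zero_of_mul hρ), C_1]

variable [Fintype F]

theorem exists_disc_goss {κ : List ℕ} (hκ : Good F (Fintype.card F) 0 κ) {d : ℕ}
    (hd : κ.sum < d * (Fintype.card F - 1)) :
    ∃ Δ : F[X], Δ ≠ 0 ∧ Δ.natDegree ≤ (2 * d + 1) * (d * val (Fintype.card F) κ) ∧
      ∀ {K : Type} [Field K] (ρ : F[X] →+* K), ρ Δ ≠ 0 → ∃ P : K[X], P.Separable ∧
        P.natDegree = κ.sum / (Fintype.card F - 1) ∧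
        ∀ n, P.coeff n = ρ (S F n (val (Fintype.card F) κ)) := by
  have hq := two_le_card (F := F)
  set q := Fintype.card F
  set f := κ.sum / (q - 1) with hf
  have hfd : f < d := (Nat.div_lt_iff_lt_mul (by omega)).2 hd
  have hle : ∀ n, n ≤ f ↔ n * (q - 1) ≤ κ.sum := fun n => Nat.le_div_iff_mul_le (by omega)
  let P : F[X][X] := ∑ n ∈ range (f + 1), monomial n (S F n (val q κ))
  have hc : ∀ n, P.coeff n = S F n (val q κ) := fun n => by
    simp only [P, finsetSum_coeff, coeff_monomial, sum_ite_eq', mem_range]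
    split_ifs with h
    · rfl
    · exact (S_eq_zero n κ (lt_of_not_ge fun h1 => h (Nat.lt_succ_iff.2 ((hle n).2 h1)))).symm
  have hn : P.natDegree = f := by
    refine le_antisymm (natDegree_sum_le_of_forall_le _ _ fun n hn =>
      (natDegree_monomial_le _).trans (Nat.lt_succ_iff.1 (mem_range.1 hn)))
      (le_natDegree_of_ne_zero ?_)
    rw [hc]
    exact (S_good hκ ((hle f).1 le_rfl)).1
  have h0 : P ≠ 0 := fun h => by simpa [h, S_zero] using hc 0
  let E := AlgebraicClosure (FractionRing F[X])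
  have hinj : Function.Injective (algebraMap F[X] E) := by
    rw [IsScalarTower.algebraMap_eq F[X] (FractionRing F[X]) E]
    exact (algebraMap (FractionRing F[X]) E).injective.comp (IsFractionRing.injective _ _)
  have he : ∀ a : F[X], aeval (algebraMap F[X] E X) a = algebraMap F[X] E a := fun a => by
    rw [aeval_algebraMap_apply, aeval_X_left_apply]
  obtain ⟨V, hV, hV1⟩ := exists_val (F := F) (t := algebraMap F[X] E X)
    (transcendental_iff_injective.2 fun a b h => hinj (by rw [← he a, ← he b, h]))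
  have hs : (P.map (algebraMap F[X] E)).Separable := by
    refine (isCoprime_iff_aeval_ne_zero_of_isAlgClosed E E _ _).2 fun z => ?_
    by_contra! h
    refine newton V.valuation hV f (fun n => algebraMap F[X] E (S F n (val q κ)))
      (fun n => U q n κ) (fun n => val q (rem ((n + 1) * (q - 1)) κ)) (fun n hn => ?_)
      (fun n _ => sum_range_succ _ _) (fun n hn => ?_) (z := z) ?_ ?_
    · obtain ⟨h1, h2⟩ := S_good hκ ((hle n).1 hn)
      rw [← he, hV1 _ h1, h2]
    · exact val_rem_lt hq κ ((Nat.mul_lt_mul_right (by omega)).2 (by omega)) ((hle _).1 hn)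
    · simpa [P, Polynomial.map_sum, eval_finsetSum] using h.1
    · have h1 := congrArg (z * ·) h.2
      simp only [P, Polynomial.map_sum, map_monomial, derivative_monomial, map_sum,
        aeval_monomial, mul_zero] at h1
      rw [← h1, mul_sum]
      refine sum_congr rfl fun n _ => ?_
      rcases n with _ | n
      · simp
      · simp only [Algebra.algebraMap_self, RingHom.id_apply, Nat.add_sub_cancel, pow_succ]
        ring
  obtain ⟨Δ, h1, h2, h3⟩ := exists_disc P (d * val q κ) (fun n => by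
    rw [hc]
    by_cases h : n ≤ f
    · exact (S_natDegree_le n κ).trans ((U_le hq n κ).trans (Nat.mul_le_mul_right _ (by omega)))
    · rw [S_eq_zero n κ (lt_of_not_ge fun h1 => h ((hle n).2 h1))]
      simp) h0 _ hinj hs
  refine ⟨Δ, h1, h2.trans (Nat.mul_le_mul_right _ (by omega)), fun ρ hρ => ?_⟩
  obtain ⟨h4, h5⟩ := h3 ρ hρ
  exact ⟨P.map ρ, h4, h5.trans hn, fun n => by rw [coeff_map, hc]⟩

end Pool.Agent.MP_f259ea_nt.FF

end

section

/-! The L-polynomial of a character to a prime modulus and its functional equation. -/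

namespace Pool.Agent.MP_f259ea_nt.FF

open Finset Polynomial AdjoinRoot

variable {F : Type} [Field F] [Fintype F]

theorem low_add {n : ℕ} {a b : F[X]} (ha : a ∈ low F n) (hb : b ∈ low F n) : a + b ∈ low F n :=
  mem_low.2 ((degree_add_le _ _).trans_lt (max_lt (mem_low.1 ha) (mem_low.1 hb)))

theorem low_sub {n : ℕ} {a b : F[X]} (ha : a ∈ low F n) (hb : b ∈ low F n) : a - b ∈ low F n :=
  mem_low.2 ((degree_sub_le _ _).trans_lt (max_lt (mem_low.1 ha) (mem_low.1 hb)))

theorem low_mono {m n : ℕ} (h : m ≤ n) {a : F[X]} (ha : a ∈ low F m) : a ∈ low F n :=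
  mem_low.2 ((mem_low.1 ha).trans_le (by exact_mod_cast h))

theorem low_C_mul {n : ℕ} (c : F) {a : F[X]} (ha : a ∈ low F n) : C c * a ∈ low F n :=
  mem_low.2 (by rw [← smul_eq_C_mul]; exact (degree_smul_le _ _).trans_lt (mem_low.1 ha))

theorem mono_mem_low {m n : ℕ} (h : m < n) (c : F) : C c * X ^ m ∈ low F n :=
  mem_low.2 ((degree_C_mul_X_pow_le _ _).trans_lt (by exact_mod_cast h))

theorem low_zero : low F 0 = {0} := by
  ext f
  simp [mem_low]

section Sums
variable {M : Type*} [AddCommMonoid M]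

theorem sum_low_add {n : ℕ} {r : F[X]} (hr : r ∈ low F n) (g : F[X] → M) :
    ∑ y ∈ low F n, g (y + r) = ∑ y ∈ low F n, g y :=
  sum_nbij' (· + r) (· - r) (fun _ h => low_add h hr) (fun _ h => low_sub h hr)
    (fun _ _ => by simp) (fun _ _ => by simp) fun _ _ => rfl

theorem sum_low_mul (n : ℕ) {c : F} (hc : c ≠ 0) (g : F[X] → M) :
    ∑ y ∈ low F n, g (C c * y) = ∑ y ∈ low F n, g y :=
  sum_nbij' (C c * ·) (C c⁻¹ * ·) (fun _ h => low_C_mul _ h) (fun _ h => low_C_mul _ h)
    (fun _ _ => by rw [← mul_assoc, ← C_mul, inv_mul_cancel₀ hc, C_1, one_mul])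
    (fun _ _ => by rw [← mul_assoc, ← C_mul, mul_inv_cancel₀ hc, C_1, one_mul]) fun _ _ => rfl

theorem sub_top_mem {n : ℕ} {y : F[X]} (h : y ∈ low F (n + 1)) :
    y - C (y.coeff n) * X ^ n ∈ low F n := by
  rw [mem_low, degree_lt_iff_coeff_zero] at *
  intro m hm
  rcases hm.eq_or_lt with rfl | hm
  · simp
  · simp [h m hm, coeff_X_pow, hm.ne']

theorem sum_low_succ (n : ℕ) (g : F[X] → M) :
    ∑ y ∈ low F (n + 1), g y = ∑ c : F, ∑ y ∈ low F n, g (C c * X ^ n + y) := by
  rw [← sum_product']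
  symm
  refine sum_nbij' (fun x => C x.1 * X ^ n + x.2) (fun y => (y.coeff n, y - C (y.coeff n) * X ^ n))
    (fun x h => low_add (mono_mem_low n.lt_succ_self _) (low_mono n.le_succ (mem_product.1 h).2))
    (fun y h => mem_product.2 ⟨mem_univ _, sub_top_mem h⟩) (fun x h => ?_) (fun _ _ => by simp)
    fun _ _ => rfl
  have h1 : (C x.1 * X ^ n + x.2).coeff n = x.1 := by
    simp [coeff_eq_zero_of_degree_lt (mem_low.1 (mem_product.1 h).2)]
  refine Prod.ext h1 ?_
  simp only [h1, add_sub_cancel_left]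

theorem mem_mon_iff {n : ℕ} {f : F[X]} : f ∈ mon F n ↔ f - X ^ n ∈ low F n := by
  rw [mem_mon]
  constructor
  · rintro ⟨h1, rfl⟩
    have h2 : f ∈ low F (f.natDegree + 1) :=
      mem_low.2 (degree_le_natDegree.trans_lt (by exact_mod_cast Nat.lt_succ_self _))
    simpa [h1.coeff_natDegree] using sub_top_mem h2
  · intro h
    have h1 : (f - X ^ n).degree < (X ^ n : F[X]).degree := by
      rw [degree_X_pow]
      exact mem_low.1 h
    rw [← add_sub_cancel (X ^ n) f]
    exact ⟨(monic_X_pow n).add_of_left h1, by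
      rw [natDegree_add_eq_left_of_degree_lt h1, natDegree_X_pow]⟩

theorem sum_mon (n : ℕ) (g : F[X] → M) :
    ∑ f ∈ mon F n, g f = ∑ y ∈ low F n, g (X ^ n + y) :=
  sum_nbij' (· - X ^ n) (X ^ n + ·) (fun _ h => mem_mon_iff.1 h)
    (fun _ h => mem_mon_iff.2 (by simpa using h)) (fun _ _ => by simp) (fun _ _ => by simp)
    fun _ _ => by simp

theorem card_low (n : ℕ) : (low F n).card = Fintype.card F ^ n := by
  induction n with
  | zero => simp [low_zero]
  | succ n ih =>
    rw [card_eq_sum_ones, sum_low_succ]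
    simp [ih, pow_succ']

theorem sum_adj {Q : F[X]} (hQ : Q.Monic) [Fintype (AdjoinRoot Q)] (g : AdjoinRoot Q → M) :
    ∑ x, g x = ∑ f ∈ low F Q.natDegree, g (mk Q f) := by
  refine sum_nbij' (modByMonicHom hQ) (mk Q) (fun x _ => ?_) (fun _ _ => mem_univ _)
    (fun x _ => mk_leftInverse hQ x) (fun f h => ?_) fun x _ => by rw [mk_leftInverse hQ x]
  · induction x using AdjoinRoot.induction_on with
    | ih f =>
      rw [modByMonicHom_mk, mem_low, ← degree_eq_natDegree hQ.ne_zero]
      exact degree_modByMonic_lt f hQ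
  · rw [modByMonicHom_mk, modByMonic_eq_self_iff hQ, degree_eq_natDegree hQ.ne_zero]
    exact mem_low.1 h

end Sums

variable {Q : F[X]}

/-- The coefficients of the L-function. -/
noncomputable def cf (χ : MulChar (AdjoinRoot Q) ℂ) (j : ℕ) : ℂ := ∑ f ∈ mon F j, χ (mk Q f)

/-- Character sums over the polynomials of small degree. -/
noncomputable def Al (χ : MulChar (AdjoinRoot Q) ℂ) (n : ℕ) : ℂ := ∑ y ∈ low F n, χ (mk Q y)

/-- The character sum over the constants. -/
noncomputable def ev (χ : MulChar (AdjoinRoot Q) ℂ) : ℂ := ∑ c : F, χ (mk Q (C c))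

/-- The L-polynomial. -/
noncomputable def LP (χ : MulChar (AdjoinRoot Q) ℂ) : ℂ[X] :=
  ∑ j ∈ range Q.natDegree, monomial j (cf χ j)

theorem eval_LP (χ : MulChar (AdjoinRoot Q) ℂ) (z : ℂ) :
    (LP χ).eval z = ∑ j ∈ range Q.natDegree, cf χ j * z ^ j := by
  simp [LP, eval_finsetSum]

theorem cf_zero (χ : MulChar (AdjoinRoot Q) ℂ) : cf χ 0 = 1 := by simp [cf, mon_zero]

/-- The additive character given by the top coefficient. -/
noncomputable def psi (hQ : Q.Monic) (ψ : AddChar F ℂ) : AddChar (AdjoinRoot Q) ℂ :=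
  ψ.compAddMonoidHom ((lcoeff F (Q.natDegree - 1)).comp (modByMonicHom hQ)).toAddMonoidHom

theorem psi_mk (hQ : Q.Monic) (ψ : AddChar F ℂ) {f : F[X]} (hf : f ∈ low F Q.natDegree) :
    psi hQ ψ (mk Q f) = ψ (f.coeff (Q.natDegree - 1)) := by
  have : f %ₘ Q = f := by
    rw [modByMonic_eq_self_iff hQ, degree_eq_natDegree hQ.ne_zero]
    exact mem_low.1 hf
  simp [psi, modByMonicHom_mk, this]

theorem mul_mem_low {m n : ℕ} {a b : F[X]} (ha : a ∈ low F m) (hb : b ∈ low F (n + 1)) :
    a * b ∈ low F (m + n) := by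
  by_cases h0 : a * b = 0
  · rw [h0, mem_low]
    exact WithBot.bot_lt_coe _
  have h1 := (natDegree_lt_iff_degree_lt (left_ne_zero_of_mul h0)).2 (mem_low.1 ha)
  have h2 := (natDegree_lt_iff_degree_lt (right_ne_zero_of_mul h0)).2 (mem_low.1 hb)
  have h3 := natDegree_mul_le (p := a) (q := b)
  exact mem_low.2 ((natDegree_lt_iff_degree_lt h0).1 (by omega))

open Classical in
theorem orth (hQ : Q.Monic) {ψ : AddChar F ℂ} (hψ : ψ ≠ 1) {j n : ℕ}
    (hd : Q.natDegree = j + n + 1) {z : F[X]} (hz : z ∈ low F Q.natDegree) :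
    ∑ y ∈ low F (n + 1), psi hQ ψ (mk Q z * mk Q y) =
      if z ∈ low F j then (Fintype.card F : ℂ) ^ (n + 1) else 0 := by
  split_ifs with h
  · rw [sum_congr rfl (g := fun _ => 1), sum_const, card_low]
    · simp
    · intro y hy
      have h1 := mul_mem_low h hy
      rw [← map_mul, psi_mk hQ ψ (low_mono (by omega) h1), hd, Nat.add_sub_cancel,
        coeff_eq_zero_of_degree_lt (mem_low.1 h1), AddChar.map_zero_eq_one]
  · obtain ⟨c, hc⟩ := AddChar.ne_one_iff.1 hψ
    have h0 : z ≠ 0 := fun h0 => h (by rw [h0, mem_low]; exact WithBot.bot_lt_coe _)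
    have h1 := (natDegree_lt_iff_degree_lt h0).2 (mem_low.1 hz)
    have h2 : j ≤ z.natDegree := le_of_not_gt fun h2 =>
      h (mem_low.2 ((natDegree_lt_iff_degree_lt h0).1 h2))
    obtain ⟨s, hs⟩ : ∃ s, z.natDegree + s = j + n := ⟨j + n - z.natDegree, by omega⟩
    have h3 : C (c / z.leadingCoeff) * X ^ s ∈ low F (n + 1) := mono_mem_low (by omega) _
    have h4 : psi hQ ψ (mk Q z * mk Q (C (c / z.leadingCoeff) * X ^ s)) = ψ c := by
      have h5 : z ∈ low F (z.natDegree + 1) :=
        mem_low.2 (degree_le_natDegree.trans_lt (by exact_mod_cast Nat.lt_succ_self _))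
      rw [← map_mul, psi_mk hQ ψ (low_mono (by omega)
        (mul_mem_low h5 (mono_mem_low s.lt_succ_self _))), hd, Nat.add_sub_cancel, ← hs,
        ← mul_assoc, coeff_mul_X_pow, coeff_mul_C, coeff_natDegree,
        mul_div_cancel₀ _ (leadingCoeff_ne_zero.2 h0)]
    have h5 := sum_low_add h3 fun y => psi hQ ψ (mk Q z * mk Q y)
    simp only [map_add, mul_add, AddChar.map_add_eq_mul, h4, ← sum_mul] at h5
    exact (mul_left_eq_self₀.1 (by rwa [mul_comm] at h5)).resolve_left hc

variable [Fact (Irreducible Q)]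

omit [Fintype F] in
theorem chi_zero (χ : MulChar (AdjoinRoot Q) ℂ) : χ 0 = 0 := χ.map_nonunit not_isUnit_zero

open Classical in
theorem sum_top (χ : MulChar (AdjoinRoot Q) ℂ) (n : ℕ) (c : F) :
    ∑ y ∈ low F n, χ (mk Q (C c * X ^ n + y)) =
      χ (mk Q (C c)) * cf χ n + if c = 0 then Al χ n else 0 := by
  split_ifs with h
  · simp [h, Al, chi_zero]
  · rw [← sum_low_mul n h, cf, sum_mon, mul_sum, add_zero]
    simp only [← mul_add, map_mul]

theorem Al_succ (χ : MulChar (AdjoinRoot Q) ℂ) (n : ℕ) :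
    Al χ (n + 1) = Al χ n + ev χ * cf χ n := by
  rw [Al, sum_low_succ]
  simp only [sum_top, sum_add_distrib, ← sum_mul]
  rw [add_comm, ev, sum_eq_single 0 (fun c _ h => if_neg h) (by simp), if_pos rfl]

theorem Al_zero (χ : MulChar (AdjoinRoot Q) ℂ) : Al χ 0 = 0 := by simp [Al, low_zero, chi_zero]

theorem Al_gen (χ : MulChar (AdjoinRoot Q) ℂ) (z : ℂ) (N : ℕ) :
    (1 - z) * ∑ n ∈ range N, Al χ n * z ^ n =
      ev χ * z * ∑ n ∈ range N, cf χ n * z ^ n - z ^ N * Al χ N := by
  induction N with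
  | zero => simp [Al_zero]
  | succ N ih =>
    rw [sum_range_succ, sum_range_succ, mul_add, ih, Al_succ]
    ring

variable [Fintype (AdjoinRoot Q)]

theorem cf_eq_zero (hQ : Q.Monic) {χ : MulChar (AdjoinRoot Q) ℂ} (hχ : χ ≠ 1) {j : ℕ}
    (hj : Q.natDegree ≤ j) : cf χ j = 0 := by
  have h1 : ∑ r ∈ low F Q.natDegree, cf χ j = 0 := by
    rw [sum_congr rfl (g := fun r => ∑ y ∈ low F j, χ (mk Q (X ^ j + y) + mk Q r)), sum_comm]
    · refine sum_eq_zero fun y _ => ?_
      rw [← sum_adj hQ fun x => χ (mk Q (X ^ j + y) + x), ← MulChar.sum_eq_zero_of_ne_one hχ]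
      exact Fintype.sum_equiv (Equiv.addLeft (mk Q (X ^ j + y))) _ _ fun _ => rfl
    · intro r hr
      rw [cf, sum_mon, ← sum_low_add (low_mono hj hr)]
      simp only [map_add, add_assoc]
  rw [sum_const, card_low] at h1
  simpa using h1

theorem poisson (hQ : Q.Monic) {χ : MulChar (AdjoinRoot Q) ℂ} (hχ : χ ≠ 1) :
    ∃ G τ : ℂ, ∀ j n, Q.natDegree = j + n + 1 →
      (Fintype.card F : ℂ) ^ (n + 1) * cf χ j = G * (τ * cf χ⁻¹ n + Al χ⁻¹ n) := by
  classical
  let ψ := AddChar.FiniteField.primitiveChar_to_Complex F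
  have hψ : ψ ≠ 1 := by
    have := AddChar.FiniteField.primitiveChar_to_Complex_isPrimitive F (a := 1) one_ne_zero
    rwa [AddChar.mulShift_one] at this
  refine ⟨gaussSum χ (psi hQ ψ), ∑ c : F, ψ (-c) * χ⁻¹ (mk Q (C c)), fun j n hd => ?_⟩
  have h1 : ∀ y, ∑ x, χ x * psi hQ ψ (x * y) = χ⁻¹ y * gaussSum χ (psi hQ ψ) := fun y => by
    by_cases hy : y = 0
    · simp [hy, MulChar.sum_eq_zero_of_ne_one hχ, chi_zero]
    · have := gaussSum_mulShift_eq χ (psi hQ ψ) (Units.mk0 y hy)
      simpa [gaussSum, mul_comm y] using this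
  have hX : (X ^ j : F[X]) ∈ low F Q.natDegree := by
    simpa using mono_mem_low (show j < Q.natDegree by omega) (1 : F)
  calc _ = ∑ z ∈ low F Q.natDegree, χ (mk Q z) *
        ∑ y ∈ low F (n + 1), psi hQ ψ (mk Q (z - X ^ j) * mk Q y) := by
        rw [sum_congr rfl fun z hz => by rw [orth hQ hψ hd (low_sub hz hX)], cf, mul_sum]
        simp only [mul_ite, mul_zero, ← mem_mon_iff]
        rw [← sum_filter]
        refine sum_congr ?_ fun _ _ => mul_comm _ _
        ext f
        rw [mem_filter, iff_and_self]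
        intro h
        simpa using low_add (low_mono (show j ≤ Q.natDegree by omega) (mem_mon_iff.1 h)) hX
    _ = ∑ y ∈ low F (n + 1), psi hQ ψ (mk Q (-(X ^ j * y))) *
        (χ⁻¹ (mk Q y) * gaussSum χ (psi hQ ψ)) := by
        simp only [mul_sum]
        rw [sum_comm]
        refine sum_congr rfl fun y _ => ?_
        rw [← h1, sum_adj hQ, mul_sum]
        refine sum_congr rfl fun z _ => ?_
        rw [mul_left_comm, ← AddChar.map_add_eq_mul]
        congr 2
        simp only [map_sub, map_neg, map_mul]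
        ring
    _ = ∑ c : F, ψ (-c) * (∑ y ∈ low F n, χ⁻¹ (mk Q (C c * X ^ n + y))) *
        gaussSum χ (psi hQ ψ) := by
        rw [sum_low_succ]
        refine sum_congr rfl fun c _ => ?_
        rw [mul_sum, sum_mul]
        refine sum_congr rfl fun y hy => ?_
        have h2 : (X ^ j : F[X]) ∈ low F (j + 1) := by
          simpa using mono_mem_low j.lt_succ_self (1 : F)
        have h3 := mul_mem_low h2 (low_add (mono_mem_low n.lt_succ_self c) (low_mono n.le_succ hy))
        rw [psi_mk hQ ψ (mem_low.2 (by rw [degree_neg, hd, add_right_comm]; exact mem_low.1 h3)),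
          hd, Nat.add_sub_cancel, coeff_neg, add_comm j n, coeff_X_pow_mul, mul_assoc]
        simp [coeff_eq_zero_of_degree_lt (mem_low.1 hy)]
    _ = _ := by
        simp only [sum_top, mul_add, add_mul, sum_add_distrib, mul_ite, ite_mul, mul_zero, zero_mul,
          sum_ite_eq', mem_univ, if_true, neg_zero, AddChar.map_zero_eq_one, one_mul, mul_sum,
          sum_mul]
        rw [mul_comm (Al χ⁻¹ n)]
        congr 1
        exact sum_congr rfl fun c _ => by ring

theorem fun_eq (hQ : Q.Monic) {χ : MulChar (AdjoinRoot Q) ℂ} (hχ : χ ≠ 1) {z : ℂ} (hz0 : z ≠ 0)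
    (hz : (LP χ⁻¹).eval z = 0) (h1 : z ≠ 1 ∨ ev χ⁻¹ = 0) :
    (LP χ).eval ((Fintype.card F : ℂ) * z)⁻¹ = 0 := by
  obtain ⟨G, τ, h⟩ := poisson hQ hχ
  have hq : (Fintype.card F : ℂ) ≠ 0 := by simp
  rw [eval_LP] at hz ⊢
  have h2 : ∑ n ∈ range Q.natDegree, Al χ⁻¹ n * z ^ n = 0 := by
    rcases h1 with h1 | h1
    · have h3 := Al_gen χ⁻¹ z Q.natDegree
      rw [hz, Al, ← sum_adj hQ fun x => χ⁻¹ x,
        MulChar.sum_eq_zero_of_ne_one (inv_ne_one.2 hχ)] at h3
      simpa [sub_ne_zero.2 h1.symm] using h3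
    · have h3 : ∀ n, Al χ⁻¹ n = 0 := fun n => by
        induction n with
        | zero => exact Al_zero _
        | succ n ih => rw [Al_succ, ih, h1, zero_mul, add_zero]
      simp [h3]
  have h3 : G * (τ * ∑ n ∈ range Q.natDegree, cf χ⁻¹ n * z ^ n +
      ∑ n ∈ range Q.natDegree, Al χ⁻¹ n * z ^ n) = 0 := by rw [hz, h2]; simp
  rw [mul_sum, ← sum_add_distrib, mul_sum, ← sum_range_reflect] at h3
  refine mul_left_cancel₀ (mul_ne_zero (pow_ne_zero Q.natDegree hq)
    (pow_ne_zero (Q.natDegree - 1) hz0)) ?_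
  rw [mul_zero, ← h3, mul_sum]
  refine sum_congr rfl fun j hj => ?_
  obtain ⟨n, hn⟩ : ∃ n, Q.natDegree = j + n + 1 := ⟨Q.natDegree - 1 - j, by
    have := mem_range.1 hj; omega⟩
  rw [show Q.natDegree - 1 - j = n by omega, ← mul_assoc τ, ← add_mul, ← mul_assoc G, ← h j n hn,
    hn, Nat.add_sub_cancel, inv_pow, mul_pow]
  field_simp
  ring

end Pool.Agent.MP_f259ea_nt.FF

end
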