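import Mathlib
import Pool.Agent.Mg.Ff259eaa.G2d7dd8
import Pool.Agent.Mg.Ff259eaa.G2433fb
import Pool.Agent.MP_2a1f0e_nt.Div

section

/-! Reduction of character values and of inverse roots modulo a prime above `p`. -/

namespace Pool.Agent.MP_f259ea_nt.FF

open Finset Polynomial

theorem ext_hom {A B Ω : Type} [CommRing A] [CommRing B] [Field Ω] [IsAlgClosed Ω] (ι : A →+* B)
    (hι : ι.IsIntegral) (φ : A →+* Ω) (h : RingHom.ker ι ≤ RingHom.ker φ) :
    ∃ ρ : B →+* Ω, ∀ a, ρ (ι a) = φ a := by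
  let := ι.toAlgebra
  have : Algebra.IsIntegral A B := ⟨hι⟩
  have := RingHom.ker_isPrime φ
  obtain ⟨P, -, hP, hc⟩ := Ideal.exists_ideal_over_prime_of_isIntegral (RingHom.ker φ) (⊥ : Ideal B) h
  have : P.LiesOver (RingHom.ker φ) := ⟨hc.symm⟩
  let := (RingHom.kerLift φ).toAlgebra
  have : FaithfulSMul (A ⧸ RingHom.ker φ) Ω :=
    (faithfulSMul_iff_algebraMap_injective _ _).2 (RingHom.kerLift_injective φ)
  let l : B ⧸ P →ₐ[A ⧸ RingHom.ker φ] Ω := IsAlgClosed.lift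
  exact ⟨l.toRingHom.comp (Ideal.Quotient.mk P), fun a => l.commutes (Ideal.Quotient.mk _ a)⟩

/-- The ring of algebraic integers. -/
abbrev OO : Subalgebra ℤ ℂ := integralClosure ℤ ℂ

section Char
variable {K : Type} [Field K] [Fintype K]

theorem chi_mem (χ : MulChar K ℂ) (x : K) : χ x ∈ OO := by
  by_cases hx : x = 0
  · rw [hx, χ.map_nonunit not_isUnit_zero]
    exact zero_mem _
  · refine IsIntegral.of_pow (n := Fintype.card K - 1) (Nat.sub_pos_of_lt Fintype.one_lt_card) ?_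
    rw [← map_pow, FiniteField.pow_card_sub_one_eq_one x hx, map_one]
    exact isIntegral_one

omit [Fintype K] in
theorem pow_eq_one_iff_gen (χ : MulChar K ℂ) {γ : Kˣ} (hγ : ∀ x, x ∈ Submonoid.powers γ) (i : ℕ) :
    χ ^ i = 1 ↔ χ γ ^ i = 1 := by
  constructor
  · intro h
    rw [← MulChar.pow_apply_coe, h, MulChar.one_apply_coe]
  · intro h
    ext x
    obtain ⟨e, rfl⟩ := hγ x
    rw [MulChar.pow_apply_coe, MulChar.one_apply_coe, Units.val_pow_eq_pow_val, map_pow,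
      ← pow_mul, mul_comm, pow_mul, h, one_pow]

theorem exists_red (χ : MulChar K ℂ) {k : ℕ} (hk : k ≠ 0)
    (hg : orderOf χ * Nat.gcd (Fintype.card K - 1) k = Fintype.card K - 1) :
    ∃ ρ : OO →+* AlgebraicClosure K, ∀ x, ρ ⟨χ x, chi_mem χ x⟩ = algebraMap K _ (x ^ k) := by
  classical
  obtain ⟨γ, hγ⟩ := IsCyclic.exists_monoid_generator (α := Kˣ)
  have hm : orderOf γ = Fintype.card K - 1 := by
    rw [orderOf_eq_card_of_forall_mem_powers hγ, Nat.card_eq_fintype_card, Fintype.card_units]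
  have h0 : 0 < Fintype.card K - 1 := Nat.sub_pos_of_lt Fintype.one_lt_card
  have hn : 0 < orderOf χ := Nat.pos_of_mul_pos_right (hg.symm ▸ h0)
  have h1 : IsPrimitiveRoot (χ γ) (orderOf χ) := by
    rw [orderOf_eq_orderOf_iff.2 (pow_eq_one_iff_gen χ hγ)]
    exact IsPrimitiveRoot.orderOf _
  have h2 : IsPrimitiveRoot (algebraMap K (AlgebraicClosure K) ((γ : K) ^ k)) (orderOf χ) := by
    refine IsPrimitiveRoot.map_of_injective ?_ (algebraMap K (AlgebraicClosure K)).injective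
    have h3 : orderOf (γ ^ k) = orderOf χ := by
      rw [orderOf_pow' _ hk, hm]
      exact Nat.div_eq_of_eq_mul_left (Nat.gcd_pos_of_pos_left _ h0) hg.symm
    rw [← h3, ← Units.val_pow_eq_pow_val, IsPrimitiveRoot.coe_units_iff]
    exact IsPrimitiveRoot.orderOf _
  let η : OO := ⟨χ γ, chi_mem χ γ⟩
  obtain ⟨ρ, hρ⟩ := ext_hom (aeval η : ℤ[X] →ₐ[ℤ] OO).toRingHom (fun b => by
      obtain ⟨p, hp, h⟩ := integralClosure.isIntegral b
      refine ⟨p.map C, hp.map _, ?_⟩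
      rw [eval₂_map, ← h]
      congr 1
      exact RingHom.ext_int _ _)
    (eval₂RingHom (Int.castRingHom _) (algebraMap K (AlgebraicClosure K) ((γ : K) ^ k)))
    fun g hg => by
      have h3 : aeval (χ γ) g = 0 := by
        have h4 : aeval η g = 0 := hg
        have := aeval_algHom_apply OO.val η g
        rwa [h4, map_zero] at this
      obtain ⟨c, rfl⟩ := minpoly.isIntegrallyClosed_dvd (chi_mem χ γ) h3
      have h5 := h2.isRoot_cyclotomic hn
      rw [← map_cyclotomic_int, IsRoot, eval_map] at h5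
      rw [RingHom.mem_ker, map_mul, ← cyclotomic_eq_minpoly h1 hn, coe_eval₂RingHom, h5, zero_mul]
  refine ⟨ρ, fun x => ?_⟩
  by_cases hx : x = 0
  · have : (⟨χ x, chi_mem χ x⟩ : OO) = 0 :=
      Subtype.ext (by rw [hx]; exact χ.map_nonunit not_isUnit_zero)
    rw [this, hx, zero_pow hk, map_zero, map_zero]
  · obtain ⟨e, he⟩ := hγ (Units.mk0 x hx)
    have h3 : x = (γ : K) ^ e := (congrArg Units.val he).symm
    have h4 : (⟨χ x, chi_mem χ x⟩ : OO) = η ^ e := Subtype.ext (by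
      show χ x = χ γ ^ e
      rw [h3, map_pow])
    have h5 := hρ X
    simp only [AlgHom.toRingHom_eq_coe, RingHom.coe_coe, aeval_X, coe_eval₂RingHom,
      eval₂_X] at h5
    rw [h4, map_pow, h5, h3, ← map_pow, ← pow_mul, ← pow_mul, mul_comm]

end Char

theorem lift_root {Ω : Type} [Field Ω] (ρ : OO →+* Ω) (s : Ω) : ∀ (n : ℕ) (M : OO[X]), M.Monic →
    M.natDegree = n → (M.map ρ).eval s = 0 → ∃ β : OO, M.eval β = 0 ∧ ρ β = s
  | 0, M, hM, hn, h => by simp [hM.natDegree_eq_zero.1 hn] at h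
  | n + 1, M, hM, hn, h => by
    obtain ⟨z, hz⟩ := IsAlgClosed.exists_aeval_eq_zero ℂ M (by
      rw [degree_eq_natDegree hM.ne_zero, hn]
      exact_mod_cast n.succ_ne_zero)
    have h1 : IsIntegral ℤ z := isIntegral_trans (A := OO) z ⟨M, hM, hz⟩
    have h2 : M.IsRoot ⟨z, h1⟩ := by
      have := aeval_algebraMap_apply ℂ (⟨z, h1⟩ : OO) M
      rw [coe_aeval_eq_eval] at this
      exact Subtype.ext (this.symm.trans hz)
    obtain ⟨M', rfl⟩ := dvd_iff_isRoot.2 h2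
    have h3 := (monic_X_sub_C _).of_mul_monic_left hM
    rw [Polynomial.map_mul, eval_mul, mul_eq_zero] at h
    rcases h with h | h
    · exact ⟨_, h2, (sub_eq_zero.1 (by simpa using h)).symm⟩
    · rw [(monic_X_sub_C _).natDegree_mul h3, natDegree_X_sub_C] at hn
      obtain ⟨β, h4, h5⟩ := lift_root ρ s n M' h3 (by omega) h
      exact ⟨β, by rw [eval_mul, h4, mul_zero], h5⟩

theorem unit_roots {K Ω : Type} [Field K] [Field Ω] [IsAlgClosed Ω] [Algebra K Ω] (ρ : OO →+* Ω)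
    (c : ℕ → OO) (h0 : c 0 = 1) (d : ℕ) (P : K[X]) (hP : P.Separable) (hd : P.natDegree < d)
    (hc : ∀ n < d, algebraMap K Ω (P.coeff n) = ρ (c n)) :
    ∃ A : Finset OO, A.card = P.natDegree ∧
      ∀ β ∈ A, ρ β ≠ 0 ∧ ∑ j ∈ range d, (c j : ℂ) * (β : ℂ)⁻¹ ^ j = 0 := by
  classical
  let M : OO[X] := ∑ j ∈ range d, C (c j) * X ^ (d - j)
  have hM : M.Monic := by
    obtain ⟨e, rfl⟩ : ∃ e, d = e + 1 := ⟨d - 1, by omega⟩
    simp only [M]
    rw [sum_range_succ', h0, C_1, one_mul, add_comm]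
    refine monic_X_pow_add ((degree_sum_le _ _).trans_lt ((Finset.sup_lt_iff
      (WithBot.bot_lt_coe _)).2 fun j hj => (degree_C_mul_X_pow_le _ _).trans_lt ?_))
    exact_mod_cast (by omega : e + 1 - (j + 1) < e + 1 - 0)
  have key : ∀ {L : Type} [Field L] (σ : OO →+* L) (s : L), s ≠ 0 →
      (M.map σ).eval s = s ^ d * ∑ j ∈ range d, σ (c j) * s⁻¹ ^ j := by
    intro L _ σ s hs
    simp only [M, Polynomial.map_sum, Polynomial.map_mul, map_C, Polynomial.map_pow, map_X,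
      eval_finsetSum, eval_mul, eval_C, eval_pow, eval_X, mul_sum]
    refine sum_congr rfl fun j hj => ?_
    rw [pow_sub₀ _ hs (mem_range.1 hj).le, inv_pow]
    ring
  have hr : ∀ r ∈ (P.map (algebraMap K Ω)).roots.toFinset, ∃ β : OO, ρ β = r⁻¹ ∧ r ≠ 0 ∧
      ∑ j ∈ range d, (c j : ℂ) * (β : ℂ)⁻¹ ^ j = 0 := by
    intro r hr
    have h1 : ∑ j ∈ range d, ρ (c j) * r ^ j = 0 := by
      have := isRoot_of_mem_roots (Multiset.mem_toFinset.1 hr)
      rw [IsRoot, eval_eq_sum_range' (n := d) (natDegree_map_le.trans_lt hd)] at this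
      rw [← this]
      exact sum_congr rfl fun j hj => by rw [coeff_map, hc j (mem_range.1 hj)]
    have h2 : r ≠ 0 := by
      rintro rfl
      obtain ⟨e, rfl⟩ : ∃ e, d = e + 1 := ⟨d - 1, by omega⟩
      simp [sum_range_succ', h0] at h1
    obtain ⟨β, h3, h4⟩ := lift_root ρ r⁻¹ _ M hM rfl (by
      rw [key ρ _ (inv_ne_zero h2), inv_inv, h1, mul_zero])
    have h5 : (β : ℂ) ≠ 0 := fun h => by
      rw [show β = 0 from Subtype.ext h, map_zero] at h4
      exact inv_ne_zero h2 h4.symm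
    have h6 := key (algebraMap OO ℂ) β h5
    rw [show (β : ℂ) = algebraMap OO ℂ β from rfl, eval_map_algebraMap, aeval_algebraMap_apply,
      coe_aeval_eq_eval, h3, map_zero] at h6
    exact ⟨β, h4, h2, (mul_eq_zero.1 h6.symm).resolve_left (pow_ne_zero _ h5)⟩
  choose! b hb using hr
  refine ⟨(P.map (algebraMap K Ω)).roots.toFinset.image b, ?_, fun β hβ => ?_⟩
  · rw [card_image_of_injOn fun r h1 r' h2 h => inv_injective (by
      rw [← (hb r h1).1, ← (hb r' h2).1, h]),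
      Multiset.toFinset_card_of_nodup (nodup_roots hP.map), IsAlgClosed.card_roots_eq_natDegree,
      natDegree_map]
  · obtain ⟨r, h1, rfl⟩ := mem_image.1 hβ
    obtain ⟨h2, h3, h4⟩ := hb r h1
    exact ⟨h2 ▸ inv_ne_zero h3, h4⟩

end Pool.Agent.MP_f259ea_nt.FF

end

section

/-! Simple zeros from a pair of complementary admissible exponents. -/

namespace Pool.Agent.MP_f259ea_nt.FF

open Finset Polynomial AdjoinRoot

variable {F : Type} [Field F] [Fintype F] {Q : F[X]}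

/-- All roots of the L-polynomial are simple. -/
def SimpleP (χ : MulChar (AdjoinRoot Q) ℂ) : Prop :=
  ∀ z, (LP χ).eval z = 0 → (derivative (LP χ)).eval z ≠ 0

theorem simple_of_card (χ : MulChar (AdjoinRoot Q) ℂ) (hd : 0 < Q.natDegree) (B : Finset ℂ)
    (hB : ∀ z ∈ B, (LP χ).eval z = 0) (hc : Q.natDegree ≤ B.card + 1) : SimpleP χ := by
  classical
  have h0 : LP χ ≠ 0 := fun h => by
    have h1 := eval_LP χ 0
    obtain ⟨e, he⟩ : ∃ e, Q.natDegree = e + 1 := ⟨_, (Nat.succ_pred_eq_of_pos hd).symm⟩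
    simp [h, he, sum_range_succ', cf_zero] at h1
  have h1 : (LP χ).natDegree ≤ Q.natDegree - 1 := natDegree_sum_le_of_forall_le _ _ fun n hn =>
    (natDegree_monomial_le _).trans (Nat.le_sub_one_of_lt (mem_range.1 hn))
  have h2 : B.card ≤ (LP χ).roots.toFinset.card := card_le_card fun z hz =>
    Multiset.mem_toFinset.2 ((mem_roots h0).2 (hB z hz))
  have h3 := card_roots' (LP χ)
  have h4 := Multiset.toFinset_card_le (LP χ).roots
  have h5 : (LP χ).roots.Nodup := Multiset.toFinset_card_eq_card_iff_nodup.1 (by omega)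
  intro z h6 h7
  have h8 := (one_lt_rootMultiplicity_iff_isRoot h0).2 ⟨h6, h7⟩
  have h9 := Multiset.nodup_iff_count_le_one.1 h5 z
  rw [count_roots] at h9
  omega

theorem card_adj (hQ : Q.Monic) [Fintype (AdjoinRoot Q)] :
    Fintype.card (AdjoinRoot Q) = Fintype.card F ^ Q.natDegree := by
  rw [← card_low, card_eq_sum_ones, ← sum_adj hQ fun _ => 1]
  simp

theorem finite_adj (hQ : Q.Monic) : Finite (AdjoinRoot Q) :=
  have := (powerBasis' hQ).finite
  Module.finite_of_finite F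

variable [Fact (Irreducible Q)] [Fintype (AdjoinRoot Q)]

theorem roots_of_red (χ : MulChar (AdjoinRoot Q) ℂ) {k : ℕ}
    (ρ : OO →+* AlgebraicClosure (AdjoinRoot Q))
    (hρ : ∀ x, ρ ⟨χ x, chi_mem χ x⟩ = algebraMap (AdjoinRoot Q) _ (x ^ k)) (P : (AdjoinRoot Q)[X])
    (hP : P.Separable) (hd : P.natDegree < Q.natDegree) (hc : ∀ n, P.coeff n = mk Q (S F n k)) :
    ∃ A : Finset OO, A.card = P.natDegree ∧ ∀ β ∈ A, ρ β ≠ 0 ∧ (LP χ).eval (β : ℂ)⁻¹ = 0 := by
  obtain ⟨A, h1, h2⟩ := unit_roots ρ (fun j => ∑ f ∈ mon F j, ⟨χ (mk Q f), chi_mem χ _⟩)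
    (by simp [mon_zero]) Q.natDegree P hP hd fun n _ => by
      simp only [hc, S, map_sum, hρ, map_pow]
  refine ⟨A, h1, fun β hβ => ⟨(h2 β hβ).1, ?_⟩⟩
  rw [eval_LP, ← (h2 β hβ).2]
  simp [cf]

omit [Fintype (AdjoinRoot Q)] in
theorem even_of_ev {χ : MulChar (AdjoinRoot Q) ℂ} (h : ev χ ≠ 0) {c : F} (hc : c ≠ 0) :
    χ (mk Q (C c)) = 1 := by
  have h1 : ev χ = χ (mk Q (C c)) * ev χ := by
    rw [ev, mul_sum]
    refine (Fintype.sum_equiv (Equiv.mulLeft₀ c hc) _ _ fun x => ?_).symm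
    simp [← map_mul]
  exact (mul_left_eq_self₀.1 h1.symm).resolve_right h

theorem simple_of_pair (hQ : Q.Monic) {χ : MulChar (AdjoinRoot Q) ℂ} (hχ : χ ≠ 1) {k k' s : ℕ}
    (hk : k ≠ 0) (hk' : k' ≠ 0)
    (hs : k * Fintype.card F ^ s + k' = Fintype.card F ^ Q.natDegree - 1)
    (hg : orderOf χ * Nat.gcd (Fintype.card F ^ Q.natDegree - 1) k =
      Fintype.card F ^ Q.natDegree - 1)
    (P P' : (AdjoinRoot Q)[X]) (hP : P.Separable) (hP' : P'.Separable)
    (hd : P.natDegree < Q.natDegree) (hd' : P'.natDegree < Q.natDegree)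
    (hc : ∀ n, P.coeff n = mk Q (S F n k)) (hc' : ∀ n, P'.coeff n = mk Q (S F n k'))
    (h1 : Q.natDegree ≤ P.natDegree + P'.natDegree + 1)
    (h2 : Fintype.card F - 1 ∣ k' → Q.natDegree ≤ P.natDegree + P'.natDegree) : SimpleP χ := by
  classical
  rw [← card_adj hQ] at hs hg
  obtain ⟨ρ, hρ⟩ := exists_red χ hk hg
  let φ := FiniteField.frobeniusAlgHom F (AlgebraicClosure (AdjoinRoot Q)) ^ s
  have hφ : ∀ y, φ y = y ^ Fintype.card F ^ s := fun y => by
    simp only [φ, AlgHom.coe_pow, FiniteField.coe_frobeniusAlgHom, pow_iterate]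
  have hρ' : ∀ x, (φ.toRingHom.comp ρ) ⟨χ⁻¹ x, chi_mem χ⁻¹ x⟩ =
      algebraMap (AdjoinRoot Q) _ (x ^ k') := fun x => by
    have h3 : (⟨χ⁻¹ x, chi_mem χ⁻¹ x⟩ : OO) = ⟨χ x⁻¹, chi_mem χ _⟩ :=
      Subtype.ext (χ.inv_apply' x)
    rw [h3]
    show φ (ρ _) = _
    rw [hρ, hφ, ← map_pow, ← pow_mul]
    congr 1
    by_cases hx : x = 0
    · rw [hx, inv_zero, zero_pow hk', zero_pow (mul_ne_zero hk (by simp))]
    · rw [inv_pow]
      refine inv_eq_of_mul_eq_one_right ?_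
      rw [← pow_add, hs, FiniteField.pow_card_sub_one_eq_one x hx]
  obtain ⟨A, hA, hA1⟩ := roots_of_red χ ρ hρ P hP hd hc
  obtain ⟨A', hA', hA2⟩ := roots_of_red χ⁻¹ _ hρ' P' hP' hd' hc'
  obtain ⟨A'', h3, h4, h5⟩ : ∃ A'' ⊆ A', (∀ β ∈ A'', (β : ℂ)⁻¹ ≠ 1 ∨ ev χ⁻¹ = 0) ∧
      Q.natDegree ≤ A.card + A''.card + 1 := by
    by_cases he : ev χ⁻¹ = 0
    · exact ⟨A', Subset.rfl, fun _ _ => Or.inr he, by omega⟩
    · refine ⟨A'.erase 1, erase_subset _ _, fun β hβ => Or.inl fun h =>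
        (mem_erase.1 hβ).1 (Subtype.ext (inv_eq_one.1 h)), ?_⟩
      have h3 := h2 ((FiniteField.forall_pow_eq_one_iff F k').1 fun c => by
        have h4 := hρ' (mk Q (C c))
        rw [show (⟨χ⁻¹ (mk Q (C c)), chi_mem χ⁻¹ _⟩ : OO) = 1 from
          Subtype.ext (even_of_ev he c.ne_zero), map_one, eq_comm,
          ← map_one (algebraMap (AdjoinRoot Q) _), (algebraMap (AdjoinRoot Q) _).injective.eq_iff,
          mk_C, ← map_pow, ← map_one (of Q), (of Q).injective.eq_iff] at h4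
        exact Units.ext (by simpa using h4))
      have h4 := pred_card_le_card_erase (s := A') (a := 1)
      omega
  have hq : (Fintype.card F : ℂ) ≠ 0 := by simp
  have hne : ∀ β ∈ A', ρ β ≠ 0 := fun β hβ h => (hA2 β hβ).1 (by simp [h])
  have hne' : ∀ β : OO, ρ β ≠ 0 → (β : ℂ) ≠ 0 := fun β h h0 =>
    h (by rw [show β = 0 from Subtype.ext h0, map_zero])
  refine simple_of_card χ (by omega) (A.image (fun β : OO => (β : ℂ)⁻¹) ∪
    A''.image fun β : OO => ((Fintype.card F : ℂ) * (β : ℂ)⁻¹)⁻¹) (fun z hz => ?_) ?_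
  · rcases mem_union.1 hz with h | h <;> obtain ⟨β, hβ, rfl⟩ := mem_image.1 h
    · exact (hA1 β hβ).2
    · exact fun_eq hQ hχ (inv_ne_zero (hne' β (hne β (h3 hβ)))) (hA2 β (h3 hβ)).2 (h4 β hβ)
  · rw [card_union_of_disjoint, card_image_of_injective, card_image_of_injective]
    · exact h5
    · exact fun a b h => Subtype.ext (inv_injective (mul_left_cancel₀ hq (inv_injective h)))
    · exact fun a b h => Subtype.ext (inv_injective h)
    · rw [disjoint_left]
      intro z h6 h7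
      obtain ⟨a, ha, rfl⟩ := mem_image.1 h6
      obtain ⟨b, hb, h8⟩ := mem_image.1 h7
      have h9 : a * b = (Fintype.card F : OO) := Subtype.ext (by
        have := hne' b (hne b (h3 hb))
        show (a : ℂ) * b = Fintype.card F
        rw [← inv_injective h8]
        field_simp)
      have h10 := congrArg ρ h9
      rw [map_mul, map_natCast, ← map_natCast (algebraMap F _), FiniteField.cast_card_eq_zero,
        map_zero] at h10
      exact mul_ne_zero (hA1 a ha).1 (hne b (h3 hb)) h10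

omit [Fact (Irreducible Q)] [Fintype (AdjoinRoot Q)] in
theorem core {κ κ' : List ℕ} (hκ : Good F (Fintype.card F) 0 κ) (hκ' : Good F (Fintype.card F) 0 κ')
    {d s : ℕ} (hsum : κ.sum + κ'.sum = d * (Fintype.card F - 1)) (h0 : val (Fintype.card F) κ ≠ 0)
    (h0' : val (Fintype.card F) κ' ≠ 0) (hs : val (Fintype.card F) κ * Fintype.card F ^ s +
      val (Fintype.card F) κ' = Fintype.card F ^ d - 1) :
    ∃ Δ : F[X], Δ ≠ 0 ∧ Δ.natDegree ≤
      (2 * d + 1) * (d * (val (Fintype.card F) κ + val (Fintype.card F) κ')) ∧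
      ∀ Q : F[X], Q.Monic → Irreducible Q → Q.natDegree = d → ¬ Q ∣ Δ →
        ∀ χ : MulChar (AdjoinRoot Q) ℂ, χ ≠ 1 →
          orderOf χ * Nat.gcd (Fintype.card F ^ d - 1) (val (Fintype.card F) κ) =
            Fintype.card F ^ d - 1 → SimpleP χ := by
  have hq := two_le_card (F := F)
  have h1 : κ.sum ≠ 0 := fun h => h0 (val_eq_zero _ _ h)
  have h1' : κ'.sum ≠ 0 := fun h => h0' (val_eq_zero _ _ h)
  obtain ⟨Δ, h2, h3, h4⟩ := exists_disc_goss hκ (d := d) (by omega)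
  obtain ⟨Δ', h2', h3', h4'⟩ := exists_disc_goss hκ' (d := d) (by omega)
  refine ⟨Δ * Δ', mul_ne_zero h2 h2', natDegree_mul_le.trans ?_, ?_⟩
  · rw [mul_add, mul_add]
    exact add_le_add h3 h3'
  rintro Q hQ hi rfl hn χ hχ hg
  have := Fact.mk hi
  have := finite_adj hQ
  have := Fintype.ofFinite (AdjoinRoot Q)
  obtain ⟨P, h5, h6, h7⟩ := h4 (mk Q) fun h => hn ((mk_eq_zero.1 h).mul_right _)
  obtain ⟨P', h5', h6', h7'⟩ := h4' (mk Q) fun h => hn ((mk_eq_zero.1 h).mul_left _)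
  have ht : 0 < Fintype.card F - 1 := by omega
  have e1 := Nat.div_add_mod κ.sum (Fintype.card F - 1)
  have e2 := Nat.div_add_mod κ'.sum (Fintype.card F - 1)
  have e3 := Nat.mod_lt κ.sum ht
  have e4 := Nat.mod_lt κ'.sum ht
  refine simple_of_pair hQ hχ h0 h0' hs hg P P' h5 h5' ?_ ?_ h7 h7' ?_ fun h => ?_
  · rw [h6]
    exact (Nat.div_lt_iff_lt_mul ht).2 (by omega)
  · rw [h6']
    exact (Nat.div_lt_iff_lt_mul ht).2 (by omega)
  · rw [h6, h6']
    exact Nat.lt_succ_iff.1 (lt_of_mul_lt_mul_left (a := Fintype.card F - 1) (by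
      simp only [Nat.succ_eq_add_one, mul_add, mul_comm _ Q.natDegree]; omega) ht.le)
  · have e5 := Nat.mod_eq_zero_of_dvd (((val_modEq (by omega) κ').dvd_iff dvd_rfl).1 h)
    rw [h6, h6']
    exact Nat.lt_succ_iff.1 (lt_of_mul_lt_mul_left (a := Fintype.card F - 1) (by
      simp only [Nat.succ_eq_add_one, mul_add, mul_comm _ Q.natDegree]; omega) ht.le)

omit [Fact (Irreducible Q)] [Fintype (AdjoinRoot Q)] in
theorem core_block (u : List ℕ) (hu : ∀ x ∈ u, x ≤ Fintype.card F - 1) {a b d : ℕ} (ha : a ≠ 0)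
    (hb : b ≠ 0) (hd : u.length + a + b = d)
    (h1 : Good F (Fintype.card F) 0 (u ++ List.replicate a (Fintype.card F - 1)))
    (h2 : ∀ s, Fintype.card F - 1 ∣ s →
      Good F (Fintype.card F) s (u.map fun x => Fintype.card F - 1 - x)) :
    ∃ Δ : F[X], Δ ≠ 0 ∧ Δ.natDegree ≤ (2 * d + 1) *
      (d * (Fintype.card F ^ (u.length + a) + Fintype.card F ^ (u.length + b))) ∧
      ∀ Q : F[X], Q.Monic → Irreducible Q → Q.natDegree = d → ¬ Q ∣ Δ →
        ∀ χ : MulChar (AdjoinRoot Q) ℂ, χ ≠ 1 → orderOf χ * Nat.gcd (Fintype.card F ^ d - 1)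
          (val (Fintype.card F) u + Fintype.card F ^ u.length * (Fintype.card F ^ a - 1)) =
            Fintype.card F ^ d - 1 → SimpleP χ := by
  have hq := two_le_card (F := F)
  set q := Fintype.card F
  have e1 := val_compl (q := q) (by omega) u hu
  have e2 := sum_compl (q := q) u hu
  have e3 := val_replicate (q := q) (by omega) a
  have e4 := val_replicate (q := q) (by omega) b
  have e5 := Nat.one_lt_pow ha hq
  have e6 := Nat.one_lt_pow hb hq
  have e7 : 0 < q ^ u.length := by positivity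
  have v1 := val_append q u (List.replicate a (q - 1))
  have v2 := val_append q (List.replicate b (q - 1)) (u.map fun x => q - 1 - x)
  rw [List.length_replicate] at v2
  obtain ⟨Δ, h3, h4, h5⟩ := core (d := d) (s := b) h1 (good_replicate b h2 0 (dvd_zero _))
    (by
      rw [List.sum_append, List.sum_append, List.sum_replicate, List.sum_replicate, ← hd, add_mul,
        add_mul, ← e2, smul_eq_mul, smul_eq_mul]
      ring)
    (by rw [v1]; exact (Nat.add_pos_right _ (Nat.mul_pos e7 (by omega))).ne')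
    (by rw [v2]; omega) (by
      refine Nat.eq_sub_of_add_eq ?_
      rw [v1, v2, ← hd, pow_add, pow_add, ← e3, ← e1, ← e4]
      ring)
  refine ⟨Δ, h3, h4.trans (Nat.mul_le_mul_left _ (Nat.mul_le_mul_left _ (add_le_add ?_ ?_))), ?_⟩
  · rw [v1, pow_add, ← e3, mul_add]
    omega
  · rw [v2, pow_add, ← e1, ← e4]
    nlinarith
  · rwa [v1, Nat.eq_sub_of_add_eq e3] at h5

end Pool.Agent.MP_f259ea_nt.FF

end

section

/-! Exceptional sets of moduli for characters of a given index. -/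

namespace Pool.Agent.MP_f259ea_nt.FF

open Finset Polynomial

variable {F : Type} [Field F] [Fintype F]

theorem free_top : Free F (Fintype.card F - 1) := by
  obtain ⟨p, hc⟩ := CharP.exists F
  obtain ⟨n, hp, hn⟩ := FiniteField.card F p
  have hq := two_le_card (F := F)
  intro y
  induction y with
  | zero => simp
  | succ y ih =>
    intro hy h
    have h1 : (((Fintype.card F - 1 + 1).choose (y + 1) : ℕ) : F) = 0 := by
      rw [Nat.sub_add_cancel (by omega), CharP.cast_eq_zero_iff F p, hn]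
      exact hp.dvd_choose_pow (by omega) (by omega)
    rw [Nat.choose_succ_succ', Nat.cast_add, h, add_zero] at h1
    exact ih (by omega) h1

theorem free_lt (hp : (Fintype.card F).Prime) {a : ℕ} (ha : a ≤ Fintype.card F - 1) :
    Free F a := fun y hy h => by
  have := Fact.mk hp
  have := charP_of_card_eq_prime (R := F) rfl
  have hq := hp.two_le
  have h1 := ((CharP.cast_eq_zero_iff F (Fintype.card F) _).1 h).mul_right
    (y.factorial * (a - y).factorial)
  rw [← mul_assoc, Nat.choose_mul_factorial_mul_factorial hy, hp.dvd_factorial] at h1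
  omega

/-- The digit list of a pattern. -/
def bl (q : ℕ) (S : Finset ℕ) (N : ℕ) : List ℕ :=
  (List.range N).map fun i => if i ∈ S then q - 1 else 0

theorem val_bl (q : ℕ) (S : Finset ℕ) (N : ℕ) :
    val q (bl q S N) = (q - 1) * yy q ((range N).filter (· ∈ S)) := by
  induction N with
  | zero => simp [bl, val, yy]
  | succ N ih =>
    rw [bl, List.range_succ, List.map_append, val_append, ← bl, ih, yy, yy, sum_filter, sum_filter,
      sum_range_succ]
    by_cases h : N ∈ S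
    · simp [bl, val, h]
      ring
    · simp [val, h]

/-- The lowest digits of a number. -/
def dig (q : ℕ) : ℕ → ℕ → List ℕ
  | 0, _ => []
  | n + 1, r => r % q :: dig q n (r / q)

theorem dig_facts {q : ℕ} (hq : 0 < q) : ∀ n r : ℕ, r < q ^ n →
    (dig q n r).length = n ∧ val q (dig q n r) = r ∧ ∀ x ∈ dig q n r, x ≤ q - 1
  | 0, r, h => by simpa [dig, val, eq_comm] using h
  | n + 1, r, h => by
    obtain ⟨h1, h2, h3⟩ := dig_facts hq n (r / q) ((Nat.div_lt_iff_lt_mul hq).2 h)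
    refine ⟨by simp [dig, h1], by rw [dig, val, h2, Nat.mod_add_div], fun x hx => ?_⟩
    rcases List.mem_cons.1 hx with rfl | hx
    · exact Nat.le_sub_one_of_lt (Nat.mod_lt _ hq)
    · exact h3 x hx

variable (F) in
/-- A polynomial of bounded degree detects the bad moduli for the index `g`. -/
def Det (d g D : ℕ) : Prop := ∃ Δ : F[X], Δ ≠ 0 ∧ Δ.natDegree ≤ D ∧
  ∀ Q : F[X], Q.Monic → Irreducible Q → Q.natDegree = d → ¬ Q ∣ Δ →
    ∀ χ : MulChar (AdjoinRoot Q) ℂ, χ ≠ 1 → orderOf χ * g = Fintype.card F ^ d - 1 → SimpleP χ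

theorem det_bits {d N a b g : ℕ} (ha : a ≠ 0) (hb : b ≠ 0) (hd : N + 1 + a + b = d)
    (h : ∀ A, A ≡ g [MOD (Fintype.card F - 1)] → ∃ S ⊆ range N, Nat.gcd (Fintype.card F ^ d - 1)
      (A + Fintype.card F * ((Fintype.card F - 1) * yy (Fintype.card F) S)) = g) :
    Det F d g ((2 * d + 1) *
      (d * (Fintype.card F ^ (N + 1 + a) + Fintype.card F ^ (N + 1 + b)))) := by
  have hq := two_le_card (F := F)
  have ht := free_top (F := F)
  set q := Fintype.card F
  obtain ⟨S, h1, h2⟩ := h (g % (q - 1) + q ^ (N + 1) * (q ^ a - 1)) (by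
    have := (Nat.modEq_zero_iff_dvd.2 ((Nat.sub_one_dvd_pow_sub_one q a).mul_left
      (q ^ (N + 1)))).add_left (g % (q - 1))
    exact this.trans (Nat.mod_modEq _ _))
  have hc : g % (q - 1) ≤ q - 1 := (Nat.mod_lt _ (by omega)).le
  have hb' : ∀ x ∈ bl q S N, x = q - 1 ∨ x = 0 := fun x hx => by
    obtain ⟨i, -, rfl⟩ := List.mem_map.1 hx
    split_ifs <;> simp
  have hl : (g % (q - 1) :: bl q S N).length = N + 1 := by simp [bl]
  have := core_block (F := F) (g % (q - 1) :: bl q S N) (fun x hx => by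
      rcases List.mem_cons.1 hx with rfl | hx
      · exact hc
      · rcases hb' x hx with rfl | rfl <;> omega) ha hb (hl ▸ hd)
    ⟨hc, Or.inr (dvd_zero _), good_of_free _ _ fun x hx => by
      rcases List.mem_append.1 hx with hx | hx
      · rcases hb' x hx with rfl | rfl
        · exact ⟨le_rfl, ht⟩
        · exact ⟨Nat.zero_le _, free_zero⟩
      · rw [List.eq_of_mem_replicate hx]
        exact ⟨le_rfl, ht⟩⟩
    fun s hs => ⟨Nat.sub_le _ _, Or.inr hs, good_of_free _ _ fun x hx => by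
      obtain ⟨y, hy, rfl⟩ := List.mem_map.1 hx
      rcases hb' y hy with rfl | rfl
      · rw [Nat.sub_self]
        exact ⟨Nat.zero_le _, free_zero⟩
      · exact ⟨le_rfl, ht⟩⟩
  rw [add_right_comm] at h2
  rw [hl, val, val_bl, filter_mem_eq_inter, inter_eq_right.2 h1, h2] at this
  exact this

theorem det_prime (hp : (Fintype.card F).Prime) {d n a g : ℕ} (ha : a ≠ 0) (hd : n + a + a = d)
    (hg : g ∣ Fintype.card F ^ d - 1)
    (h : g * (4 ^ (Fintype.card F ^ d - 1).primeFactors.card + 1) ≤ Fintype.card F ^ n) :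
    Det F d g ((2 * d + 1) * (d * (Fintype.card F ^ (n + a) + Fintype.card F ^ (n + a)))) := by
  have hq := two_le_card (F := F)
  have ht := fun a => free_lt (a := a) hp
  set q := Fintype.card F
  have h0 := Nat.one_lt_pow (show d ≠ 0 by omega) hq
  obtain ⟨r, h1, h2⟩ := exists_interval (q ^ n * (q ^ a - 1)) hg (by omega) h
  obtain ⟨h3, h4, h5⟩ := dig_facts (by omega) n r h1
  have := core_block (F := F) (dig q n r) h5 ha ha (h3.symm ▸ hd)
    (good_of_free _ _ fun x hx => by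
      rcases List.mem_append.1 hx with hx | hx
      · exact ⟨h5 x hx, ht _ (h5 x hx)⟩
      · rw [List.eq_of_mem_replicate hx]
        exact ⟨le_rfl, ht _ le_rfl⟩)
    fun s _ => good_of_free _ _ fun x hx => by
      obtain ⟨y, -, rfl⟩ := List.mem_map.1 hx
      exact ⟨Nat.sub_le _ _, ht _ (Nat.sub_le _ _)⟩
  rw [h3, h4, h2] at this
  exact this

theorem bad_set {d E : ℕ} (hd : d ≠ 0) (G : Finset ℕ)
    (h : ∀ g ∈ G, Det F d g ((2 * d + 1) * (d * E))) :
    ∃ B : Finset F[X], B.card ≤ G.card * ((2 * d + 1) * E) ∧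
      ∀ Q : F[X], Q.Monic → Irreducible Q → Q.natDegree = d → Q ∉ B →
        ∀ χ : MulChar (AdjoinRoot Q) ℂ, χ ≠ 1 → ∀ g ∈ G,
          orderOf χ * g = Fintype.card F ^ d - 1 → SimpleP χ := by
  classical
  choose! Δ h1 h2 h3 using h
  refine ⟨G.biUnion fun g => (mon F d).filter fun Q => Irreducible Q ∧ Q ∣ Δ g,
    card_biUnion_le_card_mul _ _ _ fun g hg => ?_, fun Q e1 e2 e3 e4 χ e5 g hg => h3 g hg Q e1 e2 e3
      (fun e6 => e4 (mem_biUnion.2 ⟨g, hg, mem_filter.2 ⟨mem_mon.2 ⟨e1, e3⟩, e2, e6⟩⟩)) χ e5⟩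
  set B := (mon F d).filter fun Q => Irreducible Q ∧ Q ∣ Δ g
  have hB : ∀ Q ∈ B, (Q.Monic ∧ Q.natDegree = d) ∧ Irreducible Q ∧ Q ∣ Δ g := fun Q hQ =>
    ⟨mem_mon.1 (mem_filter.1 hQ).1, (mem_filter.1 hQ).2⟩
  have h4 : ∏ Q ∈ B, Q ∣ Δ g := prod_dvd_of_coprime (fun Q hQ R hR hne =>
    (hB Q hQ).2.1.coprime_iff_not_dvd.2 fun h => hne (eq_of_monic_of_associated (hB Q hQ).1.1
      (hB R hR).1.1 ((hB Q hQ).2.1.associated_of_dvd (hB R hR).2.1 h))) fun Q hQ => (hB Q hQ).2.2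
  have h5 := (natDegree_le_of_dvd h4 (h1 g hg)).trans (h2 g hg)
  rw [natDegree_prod_of_monic _ _ fun Q hQ => (hB Q hQ).1.1,
    sum_congr rfl fun Q hQ => (hB Q hQ).1.2, sum_const, smul_eq_mul, mul_left_comm,
    mul_comm _ d] at h5
  exact Nat.le_of_mul_le_mul_left h5 (Nat.pos_of_ne_zero hd)

end Pool.Agent.MP_f259ea_nt.FF

end

section

/-! Few elements of a finite cyclic group have small order. -/

namespace Pool.Agent.MP_f259ea_nt.FF

open Finset ArithmeticFunction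

theorem lambda_sum {m X : ℕ} (hX : X ≠ 0) : ∑ e ∈ m.divisors, vonMangoldt e / e ≤
    Real.log X * (1 + Real.log X) + Real.log m / X := by
  have hX' : (1 : ℝ) ≤ X := by exact_mod_cast Nat.pos_of_ne_zero hX
  have hl := Real.log_nonneg hX'
  rw [← sum_filter_add_sum_filter_not _ fun e => e ≤ X]
  refine add_le_add ?_ ?_
  · have h1 := harmonic_le_one_add_log X
    rw [harmonic_eq_sum_Icc] at h1
    push_cast at h1
    refine le_trans ?_ (mul_le_mul_of_nonneg_left h1 hl)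
    rw [mul_sum]
    refine le_trans (sum_le_sum fun e he => ?_) (sum_le_sum_of_subset_of_nonneg (fun e he =>
      mem_Icc.2 ⟨Nat.pos_of_mem_divisors (mem_filter.1 he).1, (mem_filter.1 he).2⟩)
      fun _ _ _ => by positivity)
    have h2 : (0 : ℝ) < e := by exact_mod_cast Nat.pos_of_mem_divisors (mem_filter.1 he).1
    rw [← div_eq_mul_inv]
    gcongr
    exact vonMangoldt_le_log.trans (Real.log_le_log h2 (by exact_mod_cast (mem_filter.1 he).2))
  · rw [← vonMangoldt_sum (n := m), sum_div]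
    refine le_trans (sum_le_sum fun e he => ?_) (sum_le_sum_of_subset_of_nonneg
      (filter_subset (fun e => ¬ e ≤ X) _) fun _ _ _ => div_nonneg vonMangoldt_nonneg (by positivity))
    exact div_le_div_of_nonneg_left vonMangoldt_nonneg (by positivity)
      (by exact_mod_cast (not_le.1 (mem_filter.1 he).2).le)

theorem low_order {Γ : Type} [Group Γ] [Finite Γ] [IsCyclic Γ] {X : ℕ} (hX : X ≠ 0) {L : ℝ}
    (P : Γ → Prop) (hP : ∀ x, P x → orderOf x * Real.exp L < Nat.card Γ) :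
    Nat.card {x // P x} * L ≤
      Nat.card Γ * (Real.log X * (1 + Real.log X) + Real.log (Nat.card Γ) / X) := by
  classical
  have := Fintype.ofFinite Γ
  have hm : 0 < Nat.card Γ := Nat.card_pos
  set m := Nat.card Γ
  have h1 : ∀ x : Γ, Real.log (m / orderOf x : ℕ) ≤
      ∑ e ∈ m.divisors, if x ^ (m / e) = 1 then vonMangoldt e else 0 := fun x => by
    rw [← vonMangoldt_sum, ← sum_filter]
    refine sum_le_sum_of_subset_of_nonneg (fun e he => ?_) fun _ _ _ => vonMangoldt_nonneg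
    have h2 := (Nat.dvd_div_iff_mul_dvd (orderOf_dvd_natCard x)).1 (Nat.dvd_of_mem_divisors he)
    have h3 := Dvd.dvd.trans (dvd_mul_left e _) h2
    refine mem_filter.2 ⟨Nat.mem_divisors.2 ⟨h3, hm.ne'⟩, orderOf_dvd_iff_pow_eq_one.1 ?_⟩
    rwa [Nat.dvd_div_iff_mul_dvd h3, mul_comm]
  have h2 : ∀ x ∈ univ.filter P, L ≤ Real.log (m / orderOf x : ℕ) := fun x hx => by
    have h3 := hP x (mem_filter.1 hx).2
    have h4 : (0 : ℝ) < orderOf x := by exact_mod_cast orderOf_pos x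
    rw [Nat.cast_div (orderOf_dvd_natCard x) h4.ne', Real.le_log_iff_exp_le (by positivity),
      le_div_iff₀' h4]
    exact h3.le
  have h3 := card_nsmul_le_sum _ _ _ h2
  rw [nsmul_eq_mul] at h3
  rw [Nat.card_eq_fintype_card, Fintype.card_subtype]
  refine h3.trans ((sum_le_sum_of_subset_of_nonneg (filter_subset _ _) fun _ _ _ =>
    Real.log_natCast_nonneg _).trans ((sum_le_sum fun x _ => h1 x).trans ?_))
  refine le_trans ?_ (mul_le_mul_of_nonneg_left (lambda_sum (m := m) hX) (by positivity))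
  rw [sum_comm, mul_sum]
  refine sum_le_sum fun e he => ?_
  have h4 := Nat.dvd_of_mem_divisors he
  have h5 := Nat.pos_of_mem_divisors he
  have h6 := IsCyclic.card_pow_eq_one_le (α := Γ) (Nat.div_pos (Nat.le_of_dvd hm h4) h5)
  rw [← sum_filter, sum_const, nsmul_eq_mul, mul_div_left_comm, mul_comm,
    ← Nat.cast_div h4 (by positivity)]
  exact mul_le_mul_of_nonneg_left (by exact_mod_cast h6) vonMangoldt_nonneg

theorem mulChar_facts (K : Type) [Field K] [Fintype K] :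
    IsCyclic (MulChar K ℂ) ∧ Nat.card (MulChar K ℂ) = Fintype.card K - 1 := by
  classical
  have : NeZero ((Monoid.exponent Kˣ : ℕ) : ℂ) := ⟨by exact_mod_cast Monoid.exponent_ne_zero_of_finite⟩
  obtain ⟨e⟩ := MulChar.mulEquiv_units K ℂ
  exact ⟨e.isCyclic.2 inferInstance, by
    rw [Nat.card_congr e.toEquiv, Nat.card_eq_fintype_card, Fintype.card_units]⟩

end Pool.Agent.MP_f259ea_nt.FF

end

section

/-! Choice of the parameters. -/

namespace Pool.Agent.MP_f259ea_nt.FF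

open Finset Polynomial

theorem tau_pow {k : ℕ} (hk : k ≠ 0) : ∃ C : ℕ, ∀ n : ℕ, n.divisors.card ^ k ≤ C * n := by
  obtain ⟨C, h1, h2⟩ := Pool.Agent.MP_2a1f0e_nt.divisor_bound (ε := (k : ℝ)⁻¹) (by positivity)
  refine ⟨⌈C ^ k⌉₊, fun n => ?_⟩
  have h3 := pow_le_pow_left₀ (by positivity) (h2 n) k
  rw [mul_pow, Real.rpow_inv_natCast_pow (by positivity) hk] at h3
  have h4 := mul_le_mul_of_nonneg_right (Nat.le_ceil (C ^ k)) (Nat.cast_nonneg (α := ℝ) n)
  exact_mod_cast h3.trans h4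

theorem two_pow_le_tau {m : ℕ} (hm : m ≠ 0) : 2 ^ m.primeFactors.card ≤ m.divisors.card := by
  rw [Nat.card_divisors hm]
  exact pow_card_le_prod _ _ _ fun l hl => Nat.succ_le_succ
    ((Nat.prime_of_mem_primeFactors hl).factorization_pos_of_dvd hm
      (Nat.dvd_of_mem_primeFactors hl))

theorem lt_pow_twelve {d Y : ℕ} (h : d < (Y + 1) ^ 12) : d < 2 ^ (12 * Y) := by
  rw [mul_comm, pow_mul]
  exact h.trans_le (Nat.pow_le_pow_left Nat.lt_two_pow_self 12)

theorem bits_main {q : ℕ} (hq : 2 ≤ q) : ∃ c Y0 : ℕ, ∀ Y, Y0 ≤ Y → ∀ d, Y ^ 12 ≤ d →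
    d < (Y + 1) ^ 12 → ∃ N ≤ c * Y ^ 8, ∀ g, g ∣ q ^ d - 1 → g ≤ 2 ^ (32 * Y ^ 4) →
      ∀ A, A ≡ g [MOD (q - 1)] →
        ∃ S ⊆ range N, Nat.gcd (q ^ d - 1) (A + q * ((q - 1) * yy q S)) = g := by
  obtain ⟨K, hK⟩ := exists_pow_lt_of_lt_one (by norm_num : (0 : ℝ) < 1 / 2) (rho_lt hq)
  obtain ⟨C, hC⟩ := tau_pow (k := 24) (by norm_num)
  have hK0 : K ≠ 0 := by rintro rfl; norm_num at hK
  set c := 46 + 2 * q
  refine ⟨K * c * (2 * q * c + 1), C * 2 ^ 12 * (2 * (1 + q)) ^ 24 + 1, fun Y hY d h1 h2 =>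
    ⟨K * (c * Y ^ 4) * (2 * q * (c * Y ^ 4) + 1), ?_, fun g hg h3 A hA => ?_⟩⟩
  · have : 1 ≤ Y ^ 4 := Nat.one_le_pow _ _ (by omega)
    calc _ ≤ K * (c * Y ^ 4) * (2 * q * (c * Y ^ 4) + Y ^ 4) := by gcongr
      _ = _ := by ring
  have hY0 : 0 < Y := by omega
  have hd : d ≠ 0 := by have := pow_pos hY0 12; omega
  refine exists_bits (T := Y ^ 2) (w := 2 * q * (c * Y ^ 4)) (w' := c * Y ^ 4) hq hd
    (by positivity) hg hA ((tail_sum hq hd (by positivity) hY0.ne').trans ?_) ?_ ?_ ?_ ?_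
  · have h4 : d.divisors.card * (2 * (1 + q)) ≤ Y := by
      refine (Nat.pow_le_pow_iff_left (n := 24) (by norm_num)).1 ?_
      have h5 : d ≤ (2 * Y) ^ 12 := h2.le.trans (Nat.pow_le_pow_left (by omega) 12)
      have h6 : Y ≤ Y ^ 12 := Nat.le_self_pow (by norm_num) Y
      calc _ = d.divisors.card ^ 24 * (2 * (1 + q)) ^ 24 := mul_pow _ _ _
        _ ≤ C * (2 * Y) ^ 12 * (2 * (1 + q)) ^ 24 := by
          gcongr
          exact (hC d).trans (by gcongr)
        _ = C * 2 ^ 12 * (2 * (1 + q)) ^ 24 * Y ^ 12 := by ring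
        _ ≤ Y ^ 12 * Y ^ 12 := by gcongr; omega
        _ = _ := by ring
    have h5 : (d.divisors.card * (2 * (1 + q)) : ℝ) ≤ Y := by exact_mod_cast h4
    have h6 : (Y : ℝ) / (Y ^ 2 : ℕ) + q / Y = (1 + q) / Y := by
      push_cast
      field_simp
    rw [h6, ← mul_div_assoc, div_le_div_iff₀ (by positivity) (by norm_num)]
    linarith
  · rw [pow_mul _ (2 * q), pow_mul _ 2 q]
    have : (q : ℝ) ≤ 2 ^ q := by exact_mod_cast Nat.lt_two_pow_self.le
    exact pow_le_pow_left₀ (by positivity) (this.trans (by gcongr; norm_num)) _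
  · exact (Nat.le_mul_of_pos_left _ (Nat.pos_of_ne_zero hK0)).trans
      (Nat.le_mul_of_pos_right _ (Nat.succ_pos _))
  · rw [Nat.mul_div_cancel _ (Nat.succ_pos _), pow_mul, ← one_div_pow]
    have := rho_pos hq
    gcongr
  · have h4 := lt_pow_twelve h2
    have h5 : q * d + 1 ≤ 2 ^ q * 2 ^ (12 * Y) :=
      Nat.mul_lt_mul'' Nat.lt_two_pow_self h4
    have h6 : WW q (Y ^ 2) ≤ (2 ^ q) ^ (Y ^ 2 * Y ^ 2) := (WW_le q _ (by omega)).trans
      (Nat.pow_le_pow_left Nat.lt_two_pow_self.le _)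
    have h7 : Y ≤ Y ^ 4 := Nat.le_self_pow (by norm_num) Y
    calc _ ≤ 2 * (2 ^ q * 2 ^ (12 * Y)) * (2 ^ (32 * Y ^ 4) * (2 ^ q) ^ (Y ^ 2 * Y ^ 2)) := by gcongr
      _ = 2 ^ (1 + q + 12 * Y + 32 * Y ^ 4 + q * Y ^ 4) := by ring
      _ < _ := Nat.pow_lt_pow_right (by norm_num) (by simp only [c]; nlinarith)

variable {F : Type} [Field F] [Fintype F]

theorem main_one : ∃ c Y0 : ℕ, ∀ Y, Y0 ≤ Y → ∀ d, Y ^ 12 ≤ d → d < (Y + 1) ^ 12 →
    ∃ (B : Finset F[X]) (e : ℕ), B.card ≤ Fintype.card F ^ e ∧ 2 * e ≤ d + c * Y ^ 8 ∧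
      ∀ Q : F[X], Q.Monic → Irreducible Q → Q.natDegree = d → Q ∉ B →
        ∀ (χ : MulChar (AdjoinRoot Q) ℂ) (g : ℕ), orderOf χ * g = Fintype.card F ^ d - 1 →
          g ≤ 2 ^ (32 * Y ^ 4) → χ ≠ 1 ∧ SimpleP χ := by
  have hq := two_le_card (F := F)
  obtain ⟨c, Y0, h⟩ := bits_main hq
  set q := Fintype.card F
  refine ⟨c + 100, Y0 + c + 40, fun Y hY d h1 h2 => ?_⟩
  obtain ⟨N, h3, h4⟩ := h Y (by omega) d h1 h2
  have e1 : Y ≤ Y ^ 4 := Nat.le_self_pow (by norm_num) Y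
  have e2 : Y ^ 4 ≤ Y ^ 8 := Nat.pow_le_pow_right (by omega) (by norm_num)
  have e3 : (c + 40) * Y ^ 8 ≤ d := le_trans (by
    calc _ ≤ Y ^ 4 * Y ^ 8 := by gcongr; omega
      _ = _ := by ring) h1
  rw [add_mul] at e3
  obtain ⟨a, b, ha, hab, hb, hd⟩ : ∃ a b, a ≠ 0 ∧ a ≤ b ∧ b ≤ a + 1 ∧ N + 1 + a + b = d :=
    ⟨(d - (N + 1)) / 2, d - (N + 1) - (d - (N + 1)) / 2, by omega, by omega, by omega, by omega⟩
  have h0 := Nat.one_lt_pow (show d ≠ 0 by omega) hq
  obtain ⟨B, h5, h6⟩ := bad_set (F := F) (d := d) (E := q ^ (N + 1 + a) + q ^ (N + 1 + b))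
    (by omega) ((Icc 1 (2 ^ (32 * Y ^ 4))).filter (· ∣ q ^ d - 1)) fun g hg =>
      det_bits ha (by omega) hd (h4 g (mem_filter.1 hg).2 (mem_Icc.1 (mem_filter.1 hg).1).2)
  refine ⟨B, 32 * Y ^ 4 + (1 + 12 * Y + (1 + (N + 1 + b))), h5.trans ?_, by rw [add_mul]; omega,
    fun Q a1 a2 a3 a4 χ g a5 a6 => ?_⟩
  · rw [pow_add _ (32 * Y ^ 4), pow_add _ (1 + 12 * Y), pow_add _ 1 (N + 1 + b)]
    refine Nat.mul_le_mul ((card_filter_le _ _).trans ?_) (Nat.mul_le_mul ?_ ?_)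
    · rw [Nat.card_Icc, Nat.add_sub_cancel]
      gcongr
    · have := lt_pow_twelve h2
      calc _ ≤ 2 ^ (1 + 12 * Y) := by rw [pow_add]; omega
        _ ≤ _ := by gcongr
    · have : q ^ (N + 1 + a) ≤ q ^ (N + 1 + b) := Nat.pow_le_pow_right (by omega) (by omega)
      have := Nat.mul_le_mul_right (q ^ (N + 1 + b)) hq
      rw [pow_one]
      omega
  · have a7 : χ ≠ 1 := by
      rintro rfl
      have b1 : 2 ^ (32 * Y ^ 4 + 1) ≤ q ^ d :=
        (Nat.pow_le_pow_right (by norm_num) (by omega)).trans (Nat.pow_le_pow_left hq d)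
      have b2 := Nat.one_lt_two_pow (show 32 * Y ^ 4 ≠ 0 by omega)
      rw [orderOf_one] at a5
      omega
    have a8 : g ≠ 0 := by rintro rfl; omega
    exact ⟨a7, h6 Q a1 a2 a3 a4 χ a7 g (mem_filter.2 ⟨mem_Icc.2 ⟨Nat.pos_of_ne_zero a8, a6⟩,
      Dvd.intro_left _ a5⟩) a5⟩

theorem main_two (hp : (Fintype.card F).Prime) {k : ℕ} (hk : k ≠ 0) : ∃ e0 : ℕ, ∀ e, e0 ≤ e →
    ∀ d, k * e ≤ d → d < k * (e + 1) → ∀ n a, a ≠ 0 → n + a + a = d →
      ∃ B : Finset F[X], B.card ≤ Fintype.card F ^ (n + a + 2 * e) ∧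
      ∀ Q : F[X], Q.Monic → Irreducible Q → Q.natDegree = d → Q ∉ B →
        ∀ (χ : MulChar (AdjoinRoot Q) ℂ) (g : ℕ), orderOf χ * g = Fintype.card F ^ d - 1 →
          Fintype.card F ^ (2 * a + 3 * e) ≤ orderOf χ → χ ≠ 1 ∧ SimpleP χ := by
  have hq := two_le_card (F := F)
  obtain ⟨C, hC⟩ := tau_pow (k := 2 * k) (by omega)
  set q := Fintype.card F
  refine ⟨C + 8 * k + 8, fun e he d h1 h2 n a ha hn => ?_⟩
  have h0 := Nat.one_lt_pow (show d ≠ 0 by omega) hq
  have h4 : (q ^ d - 1).divisors.card ≤ q ^ e := by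
    refine (Nat.pow_le_pow_iff_left (n := 2 * k) (by omega)).1 ((hC _).trans ?_)
    have h5 : C ≤ q ^ C := (Nat.lt_pow_self hq).le
    obtain ⟨t, rfl⟩ : ∃ t, k = t + 1 := ⟨k - 1, by omega⟩
    calc _ ≤ q ^ C * q ^ d := by gcongr; omega
      _ ≤ _ := by
        rw [← pow_add, ← pow_mul]
        exact Nat.pow_le_pow_right (by omega) (by nlinarith)
  have h5 : (2 * d + 1) * 2 ≤ q ^ e := by
    obtain ⟨t, rfl⟩ : ∃ t, e = 4 * k + t := ⟨e - 4 * k, by omega⟩
    have b1 : 4 * k < 2 ^ (4 * k) := Nat.lt_two_pow_self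
    have b2 : t - 2 < 2 ^ (t - 2) := Nat.lt_two_pow_self
    have b3 : 2 ^ t = 4 * 2 ^ (t - 2) := by
      rw [show t = 2 + (t - 2) by omega, pow_add]
      simp
    refine le_trans ?_ (Nat.pow_le_pow_left hq _)
    calc _ ≤ 4 * k * (4 * k + t + 1) := by nlinarith
      _ ≤ 2 ^ (4 * k) * 2 ^ t := by gcongr; omega
      _ = _ := by ring
  obtain ⟨B, h6, h7⟩ := bad_set (F := F) (d := d) (E := q ^ (n + a) + q ^ (n + a))
    (by omega) ((q ^ d - 1).divisors.filter fun g => g * q ^ (2 * a + 3 * e) ≤ q ^ d) fun g hg =>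
      det_prime hp ha hn (Nat.dvd_of_mem_divisors (mem_filter.1 hg).1) (by
        have b1 := (two_pow_le_tau (by omega)).trans h4
        have b2 : 4 ^ (q ^ d - 1).primeFactors.card ≤ q ^ e * q ^ e := by
          rw [show 4 = 2 * 2 from rfl, mul_pow]
          gcongr
        have b3 : 2 ≤ q ^ e := Nat.one_lt_pow (by omega) hq
        refine Nat.le_of_mul_le_mul_right (c := q ^ (2 * a)) ?_ (by positivity)
        calc _ ≤ g * (q ^ e * q ^ e * q ^ e) * q ^ (2 * a) := by gcongr; nlinarith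
          _ = g * q ^ (2 * a + 3 * e) := by ring
          _ ≤ q ^ d := (mem_filter.1 hg).2
          _ = _ := by rw [← hn]; ring)
  refine ⟨B, h6.trans ?_, fun Q a1 a2 a3 a4 χ g a5 a6 => ?_⟩
  · calc _ ≤ q ^ e * ((2 * d + 1) * 2 * q ^ (n + a)) :=
          Nat.mul_le_mul ((card_filter_le _ _).trans h4) (le_of_eq (by ring))
      _ ≤ q ^ e * (q ^ e * q ^ (n + a)) := by gcongr
      _ = _ := by ring
  · have a7 : χ ≠ 1 := by
      rintro rfl
      have := Nat.one_lt_pow (show 2 * a + 3 * e ≠ 0 by omega) hq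
      rw [orderOf_one] at a6
      omega
    refine ⟨a7, h7 Q a1 a2 a3 a4 χ a7 g (mem_filter.2 ⟨Nat.mem_divisors.2
      ⟨Dvd.intro_left _ a5, by omega⟩, ?_⟩) a5⟩
    have := Nat.mul_le_mul_left g a6
    rw [mul_comm g (orderOf χ)] at this
    omega

end Pool.Agent.MP_f259ea_nt.FF

end

section

/-! The main estimate with real parameters. -/

namespace Pool.Agent.MP_f259ea_nt.FF

open Finset Polynomial

theorem exp_le_two_pow {t : ℝ} {n : ℕ} (h : 2 * t ≤ n) : Real.exp t ≤ 2 ^ n := by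
  have h1 := Real.log_two_gt_d9
  have h2 : (0 : ℝ) ≤ n := Nat.cast_nonneg n
  rw [← Real.le_log_iff_exp_le (by positivity), Real.log_pow]
  nlinarith

theorem cbrt_le {d : ℕ} {t : ℝ} (ht : 0 ≤ t) : (d : ℝ) ^ (1 / 3 : ℝ) ≤ t ↔ d ≤ t ^ 3 := by
  rw [one_div, Real.rpow_inv_le_iff_of_pos (by positivity) ht (by norm_num)]
  norm_cast

theorem le_cbrt {d : ℕ} {t : ℝ} (ht : 0 ≤ t) : t ≤ (d : ℝ) ^ (1 / 3 : ℝ) ↔ t ^ 3 ≤ d := by
  rw [one_div, Real.le_rpow_inv_iff_of_pos ht (by positivity) (by norm_num)]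
  norm_cast

variable {F : Type} [Field F] [Fintype F]

theorem char_facts {Q : F[X]} (hQ : Q.Monic) (hi : Irreducible Q) :
    Finite (MulChar (AdjoinRoot Q) ℂ) ∧ IsCyclic (MulChar (AdjoinRoot Q) ℂ) ∧
      Nat.card (MulChar (AdjoinRoot Q) ℂ) = Fintype.card F ^ Q.natDegree - 1 := by
  have := Fact.mk hi
  have := finite_adj hQ
  have := Fintype.ofFinite (AdjoinRoot Q)
  rw [← card_adj hQ]
  exact ⟨inferInstance, mulChar_facts (AdjoinRoot Q)⟩

theorem exists_index {Q : F[X]} (hQ : Q.Monic) (hi : Irreducible Q)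
    (χ : MulChar (AdjoinRoot Q) ℂ) :
    0 < orderOf χ ∧ ∃ g, orderOf χ * g = Fintype.card F ^ Q.natDegree - 1 := by
  obtain ⟨h1, -, h2⟩ := char_facts hQ hi
  obtain ⟨g, hg⟩ := orderOf_dvd_natCard χ
  exact ⟨orderOf_pos χ, g, hg.symm.trans h2⟩

theorem simple_main {θ ε : ℝ} (h0 : 0 < θ) (h1 : θ ≤ 1) (hp : θ = 1 ∨ (Fintype.card F).Prime)
    (hε : 0 < ε) : ∃ d0 : ℕ, ∀ d, d0 ≤ d → ∃ B : Finset F[X],
      (B.card : ℝ) ≤ (Fintype.card F : ℝ) ^ ((1 - θ / 2 + ε) * d) ∧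
      ∀ Q : F[X], Q.Monic → Irreducible Q → Q.natDegree = d → Q ∉ B →
        ∀ χ : MulChar (AdjoinRoot Q) ℂ, ((Fintype.card F : ℝ) ^ d - 1) ^ θ ≤
          orderOf χ * Real.exp ((d : ℝ) ^ (1 / 3 : ℝ)) → χ ≠ 1 ∧ SimpleP χ := by
  have hq := two_le_card (F := F)
  have hq' : (2 : ℝ) ≤ Fintype.card F := by exact_mod_cast hq
  have hB : ∀ (B : Finset F[X]) (e : ℕ) (x : ℝ), B.card ≤ Fintype.card F ^ e → e ≤ x →
      (B.card : ℝ) ≤ (Fintype.card F : ℝ) ^ x := fun B e x h2 h3 => by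
    refine le_trans ?_ (Real.rpow_le_rpow_of_exponent_le (by linarith) h3)
    exact_mod_cast h2
  rcases hp with rfl | hp
  · obtain ⟨c, Y0, h⟩ := main_one (F := F)
    refine ⟨(Y0 + ⌈c / ε⌉₊ + 1) ^ 12, fun d hd => ?_⟩
    have e1 := (Nat.le_nthRoot_iff (by norm_num)).2 hd
    have e2 := Nat.pow_nthRoot_le (n := 12) (a := d) (Or.inl (by norm_num))
    have e3 := Nat.lt_pow_nthRoot_add_one (n := 12) (by norm_num) d
    generalize Nat.nthRoot 12 d = Y at *
    obtain ⟨B, e, h2, h3, h4⟩ := h Y (by omega) d e2 e3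
    refine ⟨B, hB B e _ h2 ?_, fun Q a1 a2 a3 a4 χ a5 => ?_⟩
    · have b1 : (c : ℝ) ≤ ε * (Y ^ 4 : ℕ) := by
        rw [← div_le_iff₀' hε]
        refine (Nat.le_ceil _).trans ?_
        exact_mod_cast le_trans (by omega) (Nat.le_self_pow (by norm_num) Y)
      have b2 : (2 * e : ℝ) ≤ d + c * Y ^ 8 := by exact_mod_cast h3
      have b3 : (Y : ℝ) ^ 12 ≤ d := by exact_mod_cast e2
      have b4 : (c : ℝ) * Y ^ 8 ≤ ε * d := by
        push_cast at b1
        calc _ ≤ ε * Y ^ 4 * Y ^ 8 := by gcongr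
          _ = ε * Y ^ 12 := by ring
          _ ≤ _ := by gcongr
      have b5 : 0 ≤ ε * d := by positivity
      linarith
    · obtain ⟨b1, g, b2⟩ := exists_index a1 a2 χ
      rw [a3] at b2
      refine h4 Q a1 a2 a3 a4 χ g b2 ?_
      have b3 : (orderOf χ * g : ℝ) = (Fintype.card F : ℝ) ^ d - 1 := by
        have := Nat.one_le_pow d _ (show 0 < Fintype.card F by omega)
        exact_mod_cast b2
      rw [Real.rpow_one, ← b3] at a5
      have b4 : (d : ℝ) ^ (1 / 3 : ℝ) ≤ (16 * Y ^ 4 : ℕ) := (cbrt_le (by positivity)).2 (by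
        have := e3.le.trans (Nat.pow_le_pow_left (show Y + 1 ≤ 2 * Y by omega) 12)
        exact_mod_cast this.trans (le_of_eq (by ring)))
      have b5 := (le_of_mul_le_mul_left a5 (by exact_mod_cast b1)).trans
        (exp_le_two_pow (n := 32 * Y ^ 4) (by push_cast at b4 ⊢; linarith))
      exact_mod_cast b5
  · obtain ⟨k, hk⟩ : ∃ k : ℕ, 5 / ε + 5 / θ ≤ k := exists_nat_ge _
    have k1 : 0 < 5 / ε := by positivity
    have k2 : 0 < 5 / θ := by positivity
    have k3 : 0 < k := by exact_mod_cast (show (0 : ℝ) < k by linarith)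
    obtain ⟨e0, h⟩ := main_two hp k3.ne'
    refine ⟨(e0 + 16 * k + 3) * k, fun d hd => ?_⟩
    have e1 := (Nat.le_div_iff_mul_le k3).2 hd
    have e2 := Nat.mul_div_le d k
    have e3 := Nat.lt_mul_div_succ d k3
    generalize d / k = e at *
    have e4 : (k * e : ℝ) ≤ d := by exact_mod_cast e2
    have e5 : (3 : ℝ) ≤ e := by exact_mod_cast (show 3 ≤ e by omega)
    have e6 : ∀ x : ℝ, 0 < x → 5 / x ≤ k → 5 * e ≤ x * d := fun x hx h5 => by
      rw [div_le_iff₀' hx] at h5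
      calc _ ≤ x * k * e := by gcongr
        _ ≤ _ := by rw [mul_assoc]; gcongr
    have e7 := e6 ε hε (by linarith)
    have e8 := e6 θ h0 (by linarith)
    have e9 := Nat.floor_le (a := (θ * d - 1 - 4 * e) / 2) (by linarith)
    have e10 := Nat.lt_floor_add_one ((θ * d - 1 - 4 * e) / 2)
    have e11 := Nat.floor_pos.2 (show 1 ≤ (θ * d - 1 - 4 * e) / 2 by linarith)
    generalize ⌊(θ * d - 1 - 4 * e) / 2⌋₊ = a at *
    have e12 : θ * d ≤ d := mul_le_of_le_one_left (Nat.cast_nonneg d) h1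
    obtain ⟨n, hn⟩ : ∃ n, n + a + a = d := ⟨d - 2 * a, by
      have : 2 * a ≤ d := by exact_mod_cast (show (2 * a : ℝ) ≤ d by linarith)
      omega⟩
    have e13 : (n + a + a : ℝ) = d := by exact_mod_cast hn
    obtain ⟨B, h2, h4⟩ := h e (by omega) d e2 e3 n a e11.ne' hn
    refine ⟨B, hB B _ _ h2 (by push_cast; linarith), fun Q a1 a2 a3 a4 χ a5 => ?_⟩
    obtain ⟨b1, g, b2⟩ := exists_index a1 a2 χ
    rw [a3] at b2
    refine h4 Q a1 a2 a3 a4 χ g b2 ?_
    set q := Fintype.card F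
    have b3 : Real.exp ((d : ℝ) ^ (1 / 3 : ℝ)) ≤ q ^ e := by
      refine (exp_le_two_pow (n := e) ?_).trans (by gcongr)
      rw [← le_div_iff₀' two_pos, cbrt_le (by positivity)]
      have c1 : 8 * d ≤ e ^ 3 := by
        calc _ ≤ 16 * k * e := by nlinarith
          _ ≤ e ^ 2 * e := by gcongr; exact le_trans (by omega) (Nat.le_self_pow two_ne_zero e)
          _ = _ := by ring
      have c2 : (8 * d : ℝ) ≤ e ^ 3 := by exact_mod_cast c1
      linarith
    have b4 : (q : ℝ) ^ ((d : ℝ) - 1) ≤ q ^ d - 1 := by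
      have c1 : (1 : ℝ) ≤ q ^ ((d : ℝ) - 1) := Real.one_le_rpow (by linarith) (by linarith)
      have c2 : (q : ℝ) ^ d = q ^ ((d : ℝ) - 1) * q := by
        rw [← Real.rpow_add_one (by positivity), sub_add_cancel, Real.rpow_natCast]
      nlinarith
    have b5 : (q : ℝ) ^ (2 * a + 3 * e) * q ^ e ≤ orderOf χ * q ^ e :=
      calc _ = (q : ℝ) ^ ((2 * a + 4 * e : ℕ) : ℝ) := by rw [Real.rpow_natCast]; ring
        _ ≤ (q : ℝ) ^ (((d : ℝ) - 1) * θ) :=
          Real.rpow_le_rpow_of_exponent_le (by linarith) (by push_cast; linarith)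
        _ ≤ (q ^ d - 1) ^ θ := by
          rw [Real.rpow_mul (by positivity)]
          gcongr
        _ ≤ _ := a5.trans (by gcongr)
    exact_mod_cast le_of_mul_le_mul_right b5 (by positivity)

theorem few_low {θ ε : ℝ} (h1 : θ ≤ 1) (hε : 0 < ε) : ∃ d0 : ℕ, ∀ Q : F[X], Q.Monic →
    Irreducible Q → d0 ≤ Q.natDegree → ∀ P : MulChar (AdjoinRoot Q) ℂ → Prop,
      (∀ χ, ((Fintype.card F : ℝ) ^ Q.natDegree - 1) ^ θ ≤
        orderOf χ * Real.exp ((Q.natDegree : ℝ) ^ (1 / 3 : ℝ)) → P χ) →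
      (Nat.card {χ // ¬ P χ} : ℝ) ≤ ε * Nat.card (MulChar (AdjoinRoot Q) ℂ) := by
  have hq := two_le_card (F := F)
  refine ⟨(⌈(156 + Fintype.card F) / ε⌉₊ + 1) ^ 12, fun Q a1 a2 hd P hP => ?_⟩
  obtain ⟨b1, b2, b3⟩ := char_facts a1 a2
  set q := Fintype.card F
  set d := Q.natDegree
  have e1 := (Nat.le_nthRoot_iff (by norm_num)).2 hd
  have e2 := Nat.pow_nthRoot_le (n := 12) (a := d) (Or.inl (by norm_num))
  have e3 := lt_pow_twelve (Nat.lt_pow_nthRoot_add_one (n := 12) (by norm_num) d)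
  generalize Nat.nthRoot 12 d = Y at *
  have hY : (1 : ℝ) ≤ Y := by exact_mod_cast (show 1 ≤ Y by omega)
  have hd0 : d ≠ 0 := by have := pow_pos (show 0 < Y by omega) 12; omega
  have hd1 : (1 : ℝ) ≤ d := by exact_mod_cast Nat.pos_of_ne_zero hd0
  have h0 := Nat.one_lt_pow hd0 hq
  have b4 : (Nat.card (MulChar (AdjoinRoot Q) ℂ) : ℝ) = q ^ d - 1 := by
    rw [b3, Nat.cast_sub h0.le, Nat.cast_pow, Nat.cast_one]
  have b5 : (1 : ℝ) ≤ q ^ d - 1 := by
    rw [← b4, b3]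
    exact_mod_cast (show 1 ≤ q ^ d - 1 by omega)
  have h2 := low_order hd0 (L := (d : ℝ) ^ (1 / 3 : ℝ)) (fun χ => ¬ P χ) fun χ h =>
    (lt_of_not_ge fun h3 => h (hP χ h3)).trans_le (by
      rw [b4]
      exact Real.rpow_le_self_of_one_le b5 h1)
  have c1 : (Y : ℝ) ^ 4 ≤ (d : ℝ) ^ (1 / 3 : ℝ) := (le_cbrt (by positivity)).2 (by
    rw [← pow_mul]
    exact_mod_cast e2)
  have c2 : Real.log d ≤ 12 * Y := by
    have h3 : (d : ℝ) ≤ 2 ^ (12 * Y) := by exact_mod_cast e3.le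
    have h4 := Real.log_le_log (by linarith) h3
    have h5 := Real.log_two_lt_d9
    rw [Real.log_pow] at h4
    push_cast at h4
    nlinarith
  have c3 : Real.log (q ^ d - 1) / d ≤ q := by
    have h3 := Real.log_le_log (by linarith) (sub_le_self ((q : ℝ) ^ d) zero_le_one)
    have h4 := Real.log_le_self (Nat.cast_nonneg q)
    rw [Real.log_pow] at h3
    rw [div_le_iff₀' (by linarith)]
    exact h3.trans (by gcongr)
  have c4 : 156 + q ≤ ε * Y := by
    rw [← div_le_iff₀' hε]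
    exact (Nat.le_ceil _).trans (Nat.cast_le.2 (by omega))
  have c5 := Real.log_nonneg hd1
  have c6 : Real.log d * (1 + Real.log d) + Real.log (q ^ d - 1) / d ≤
      ε * (d : ℝ) ^ (1 / 3 : ℝ) :=
    calc _ ≤ 12 * Y * (Y + 12 * Y) + q * (Y : ℝ) ^ 2 := by
          gcongr
          exact c3.trans (le_mul_of_one_le_right (by positivity) (one_le_pow₀ hY))
      _ = (156 + q) * (Y : ℝ) ^ 2 * 1 := by ring
      _ ≤ ε * Y * Y ^ 2 * Y := by gcongr
      _ = ε * Y ^ 4 := by ring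
      _ ≤ _ := by gcongr
  rw [b4] at h2 ⊢
  refine le_of_mul_le_mul_right (a := (d : ℝ) ^ (1 / 3 : ℝ)) (h2.trans ?_) (by positivity)
  rw [mul_comm ε, mul_assoc]
  gcongr

end Pool.Agent.MP_f259ea_nt.FF

end
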